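import Pool.Agent.Zk39.MC.Def

/-!
# The four point condition: null pairs, convergence groups, isometric extensions
-/

set_option autoImplicit false

open Finset Filter Topology

namespace Pool.Agent.Zk80.FP4

open Pool.Agent.Zk39.MC

theorem null_of_fourPoint {X Y : Type} [TopologicalSpace X] [CompactSpace X] [TopologicalSpace Y]
    {S : Y → Y} {P : Set Y} {T : X → X} {π : X → Y} {D : X → X → ℝ} (hD : PseudoMetric D)
    (h4 : FourPoint T π D) {A B : Set X} {ε : ℝ} (hε : 0 < ε)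
    (hAB : ∀ a ∈ A, ∀ b ∈ B, ε ≤ D a b) : NullPair S P T π A B := by
  classical
  obtain ⟨hcont, h0, hsymm, htri⟩ := hD
  obtain ⟨c, hc, h4⟩ := h4 ε hε
  have hc' : 0 < min c ε := lt_min hc hε
  -- a finite cover
  obtain ⟨t, ht⟩ := isCompact_univ.elim_finite_subcover (fun z : X => {x | D x z < min c ε / 2})
    (fun z => isOpen_lt (hcont.comp (continuous_id.prodMk continuous_const)) continuous_const)
    (fun x _ => Set.mem_iUnion.2 ⟨x, by
      show D x x < min c ε / 2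
      rw [h0]
      exact half_pos hc'⟩)
  have hq : ∀ x : X, ∃ z : t, D x z < min c ε / 2 := by
    intro x
    obtain ⟨z, hz, hx⟩ := Set.mem_iUnion₂.1 (ht (Set.mem_univ x))
    exact ⟨⟨z, hz⟩, hx⟩
  choose q hq using hq
  have hqq : ∀ x x', q x = q x' → D x x' < min c ε := by
    intro x x' h
    have h1 := htri x (q x) x'
    have h2 := hq x
    have h3 := hq x'
    rw [← h, hsymm] at h3
    linarith
  have sep : ∀ (p p' : X) (s s' : Bool), s ≠ s' → p ∈ (if s then A else B) →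
      p' ∈ (if s' then A else B) → ε ≤ D p p' := by
    intro p p' s s' hs hp hp'
    cases s <;> cases s'
    · exact absurd rfl hs
    · rw [hsymm]
      exact hAB _ (by simpa using hp') _ (by simpa using hp)
    · exact hAB _ (by simpa using hp) _ (by simpa using hp')
    · exact absurd rfl hs
  intro δ hδ
  refine ⟨t.card + 1, Set.univ, isClosed_univ, ⟨0, fun N _ y _ => ⟨∅, fun n _ h => ?_, ?_⟩⟩, ?_⟩
  · exact absurd (Set.mem_univ _) h
  · rw [Finset.card_empty, Nat.cast_zero]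
    positivity
  intro y _ m
  by_contra hcon
  push Not at hcon
  choose x hx1 hx2 using hcon
  have hcard : Fintype.card t < Fintype.card (Fin (t.card + 1) → Bool) := by
    rw [Fintype.card_fun, Fintype.card_bool, Fintype.card_fin, Fintype.card_coe]
    exact (Nat.lt_succ_self _).trans Nat.lt_two_pow_self
  obtain ⟨τ, τ', hne, heq⟩ := Fintype.exists_ne_map_eq_of_card_lt
    (fun τ : Fin (t.card + 1) → Bool => q (T^[m 0] (x τ))) hcard
  have hlt := hqq _ _ heq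
  by_cases h00 : τ 0 = τ' 0
  · obtain ⟨j, hj⟩ := Function.ne_iff.1 hne
    have hj0 : j ≠ 0 := fun h => hj (h ▸ h00)
    let σ := Function.update τ 0 (!τ 0)
    let σ' := Function.update τ' 0 (!τ' 0)
    have hσ0 : σ 0 = !τ 0 := Function.update_self _ _ _
    have hσ0' : σ' 0 = !τ' 0 := Function.update_self _ _ _
    have hσj : σ j = τ j := Function.update_of_ne hj0 _ _
    have hσj' : σ' j = τ' j := Function.update_of_ne hj0 _ _
    have key := h4 (m 0) (m j) (x τ) (x τ') (x σ) (x σ')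
      (by rw [hx1, hx1]) (by rw [hx1, hx1]) (by rw [hx1, hx1])
      (sep _ _ (τ 0) (σ 0) (by rw [hσ0]; cases τ 0 <;> simp) (hx2 τ 0) (hx2 σ 0))
      (sep _ _ (τ 0) (σ' 0) (by rw [hσ0', ← h00]; cases τ 0 <;> simp) (hx2 τ 0) (hx2 σ' 0))
      (sep _ _ (τ' 0) (σ 0) (by rw [hσ0, ← h00]; cases τ 0 <;> simp) (hx2 τ' 0) (hx2 σ 0))
      (sep _ _ (τ' 0) (σ' 0) (by rw [hσ0']; cases τ' 0 <;> simp) (hx2 τ' 0) (hx2 σ' 0))
      (sep _ _ (τ j) (τ' j) hj (hx2 τ j) (hx2 τ' j))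
      (sep _ _ (σ j) (σ' j) (by rw [hσj, hσj']; exact hj) (hx2 σ j) (hx2 σ' j))
    exact absurd (hlt.trans_le (min_le_left _ _)) (not_lt.2 key)
  · exact absurd (hlt.trans_le (min_le_right _ _))
      (not_lt.2 (sep _ _ (τ 0) (τ' 0) h00 (hx2 τ 0) (hx2 τ' 0)))

theorem key {Z : Type} [MetricSpace Z] [CompactSpace Z] {𝒢 : Set (Z → Z)} (hC : Convergence 𝒢)
    {ε : ℝ} (hε : 0 < ε) : ∃ c : ℝ, 0 < c ∧ ∀ h ∈ 𝒢, ∀ u₁ u₂ u₃ u₄ : Z, ε ≤ dist u₁ u₃ →
      ε ≤ dist u₁ u₄ → ε ≤ dist u₂ u₃ → ε ≤ dist u₂ u₄ → ε ≤ dist (h u₁) (h u₂) →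
      ε ≤ dist (h u₃) (h u₄) → c ≤ dist u₁ u₂ := by
  by_contra hcon
  push Not at hcon
  have hseq := fun n : ℕ => hcon (1 / ((n : ℝ) + 1)) (by positivity)
  choose h hh u₁ u₂ u₃ u₄ h13 h14 h23 h24 h12 h34 hlt using hseq
  obtain ⟨φ, hφ, hdich⟩ := hC h hh
  obtain ⟨⟨a₁, a₃, a₄⟩, -, ψ, hψ, hlim⟩ := isCompact_univ.tendsto_subseq
    (x := fun n => (u₁ (φ n), u₃ (φ n), u₄ (φ n))) (fun n => Set.mem_univ _)
  have l1 : Tendsto (fun n => u₁ (φ (ψ n))) atTop (𝓝 a₁) :=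
    (continuous_fst.tendsto _).comp hlim
  have l3 : Tendsto (fun n => u₃ (φ (ψ n))) atTop (𝓝 a₃) :=
    (continuous_fst.tendsto _).comp ((continuous_snd.tendsto _).comp hlim)
  have l4 : Tendsto (fun n => u₄ (φ (ψ n))) atTop (𝓝 a₄) :=
    (continuous_snd.tendsto _).comp ((continuous_snd.tendsto _).comp hlim)
  have hsub : Tendsto (fun n => φ (ψ n)) atTop atTop := hφ.tendsto_atTop.comp hψ.tendsto_atTop
  have hd : Tendsto (fun n => dist (u₁ (φ (ψ n))) (u₂ (φ (ψ n)))) atTop (𝓝 0) := by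
    have h1 : Tendsto (fun n : ℕ => 1 / ((n : ℝ) + 1)) atTop (𝓝 0) :=
      tendsto_one_div_add_atTop_nhds_zero_nat
    exact squeeze_zero (fun _ => dist_nonneg) (fun n => (hlt (φ (ψ n))).le) (h1.comp hsub)
  have l2 : Tendsto (fun n => u₂ (φ (ψ n))) atTop (𝓝 a₁) := by
    rw [tendsto_iff_dist_tendsto_zero] at l1 ⊢
    refine squeeze_zero (fun _ => dist_nonneg) (fun n => ?_) (by simpa using hd.add l1)
    calc dist (u₂ (φ (ψ n))) a₁ ≤ dist (u₂ (φ (ψ n))) (u₁ (φ (ψ n))) +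
          dist (u₁ (φ (ψ n))) a₁ := dist_triangle _ _ _
      _ = _ := by rw [dist_comm (u₂ (φ (ψ n)))]
  have contra : ∀ (v w : ℕ → Z) (a : Z), Tendsto v atTop (𝓝 a) → Tendsto w atTop (𝓝 a) →
      (∀ n, ε ≤ dist (v n) (w n)) → False := by
    intro v w a hv hw hle
    have h1 := ge_of_tendsto' (hv.dist hw) hle
    rw [dist_self] at h1
    linarith
  rcases hdich with ⟨k, hk, hU⟩ | ⟨a, b, hU⟩
  · have hU' : TendstoUniformly (fun n => h (φ (ψ n))) k atTop := fun s hs =>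
      hψ.tendsto_atTop.eventually (hU s hs)
    exact contra _ _ (k a₁) (hU'.tendsto_comp hk.continuousAt l1)
      (hU'.tendsto_comp hk.continuousAt l2) fun n => h12 _
  · have hU' : TendstoLocallyUniformlyOn (fun n => h (φ (ψ n))) (fun _ => a) atTop {b}ᶜ := by
      intro s hs x hx
      obtain ⟨t, ht, h1⟩ := hU s hs x hx
      exact ⟨t, ht, hψ.tendsto_atTop.eventually h1⟩
    have conv : ∀ (v : ℕ → Z) (v₀ : Z), v₀ ≠ b → Tendsto v atTop (𝓝 v₀) →
        Tendsto (fun n => h (φ (ψ n)) (v n)) atTop (𝓝 a) := by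
      intro v v₀ hv₀ hv
      have hmem : v₀ ∈ ({b}ᶜ : Set Z) := hv₀
      refine hU'.tendsto_comp (x := v₀) continuousWithinAt_const hmem ?_
      rw [isOpen_compl_singleton.nhdsWithin_eq hmem]
      exact hv
    by_cases hab : a₁ = b
    · have d13 : ε ≤ dist a₁ a₃ := ge_of_tendsto' (l1.dist l3) fun n => h13 _
      have d14 : ε ≤ dist a₁ a₄ := ge_of_tendsto' (l1.dist l4) fun n => h14 _
      have h3 : a₃ ≠ b := by
        rintro rfl
        rw [hab, dist_self] at d13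
        linarith
      have h4 : a₄ ≠ b := by
        rintro rfl
        rw [hab, dist_self] at d14
        linarith
      exact contra _ _ a (conv _ _ h3 l3) (conv _ _ h4 l4) fun n => h34 _
    · exact contra _ _ a (conv _ _ hab l1) (conv _ _ hab l2) fun n => h12 _

theorem fourPoint_of_convergence {Y Z : Type} [MetricSpace Z] [CompactSpace Z] {S : Y → Y}
    {f : Y → Z → Z} {𝒢 : Set (Z → Z)} (hf : ∀ y, f y ∈ 𝒢) (hid : id ∈ 𝒢)
    (hcomp : ∀ g ∈ 𝒢, ∀ h ∈ 𝒢, g ∘ h ∈ 𝒢) (hinv : ∀ g ∈ 𝒢, ∃ h ∈ 𝒢, h ∘ g = id)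
    (hC : Convergence 𝒢) :
    FourPoint (fun x : Y × Z => (S x.1, f x.1 x.2)) Prod.fst (fun a b => dist a.2 b.2) := by
  have hiter : ∀ (m : ℕ) (y : Y), ∃ g ∈ 𝒢, ∀ z : Z,
      (fun x : Y × Z => (S x.1, f x.1 x.2))^[m] (y, z) = (S^[m] y, g z) := by
    intro m y
    induction m with
    | zero => exact ⟨id, hid, fun z => rfl⟩
    | succ m ih =>
        obtain ⟨g, hg, h⟩ := ih
        refine ⟨f (S^[m] y) ∘ g, hcomp _ (hf _) _ hg, fun z => ?_⟩
        rw [Function.iterate_succ_apply', h, Function.iterate_succ_apply']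
        rfl
  intro ε hε
  obtain ⟨c, hc, hkey⟩ := key hC hε
  refine ⟨c, hc, ?_⟩
  rintro m m' ⟨y, z₁⟩ ⟨y₂, z₂⟩ ⟨y₃, z₃⟩ ⟨y₄, z₄⟩ e2 e3 e4 h13 h14 h23 h24 h12 h34
  have e2' : y = y₂ := e2
  have e3' : y = y₃ := e3
  have e4' : y = y₄ := e4
  subst e2'; subst e3'; subst e4'
  obtain ⟨g, hg, h1⟩ := hiter m y
  obtain ⟨g', hg', h2⟩ := hiter m' y
  obtain ⟨k, hk, hkg⟩ := hinv g hg
  have h3 : ∀ z, (g' ∘ k) (g z) = g' z := fun z => by
    have : k (g z) = z := congrFun hkg z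
    rw [Function.comp_apply, this]
  rw [h1, h1] at h13 h14 h23 h24 ⊢
  rw [h2, h2] at h12 h34
  exact hkey (g' ∘ k) (hcomp _ hg' _ hk) (g z₁) (g z₂) (g z₃) (g z₄) h13 h14 h23 h24
    (by rw [h3, h3]; exact h12) (by rw [h3, h3]; exact h34)

theorem fourPoint_of_isometry {X Y : Type} {S : Y → Y} {T : X → X} {π : X → Y} {D : X → X → ℝ}
    (hπT : ∀ x, π (T x) = S (π x)) (h : ∀ x x', π x = π x' → D (T x) (T x') = D x x') :
    FourPoint T π D := by
  have hiter : ∀ (m : ℕ) (x x' : X), π x = π x' →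
      π (T^[m] x) = π (T^[m] x') ∧ D (T^[m] x) (T^[m] x') = D x x' := by
    intro m x x' hx
    induction m with
    | zero => exact ⟨hx, rfl⟩
    | succ m ih =>
        rw [Function.iterate_succ_apply', Function.iterate_succ_apply']
        exact ⟨by rw [hπT, hπT, ih.1], (h _ _ ih.1).trans ih.2⟩
  intro ε hε
  refine ⟨ε, hε, ?_⟩
  intro m m' x₁ x₂ x₃ x₄ e2 _ _ _ _ _ _ h12 _
  rw [(hiter m x₁ x₂ e2).2]
  rw [(hiter m' x₁ x₂ e2).2] at h12
  exact h12

end Pool.Agent.Zk80.FP4
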