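import Mathlib

set_option autoImplicit false

/-!
Averages along lines near a point: the analysis (helper80, for helper55).
-/

namespace Pool.Agent.Zk80.RFB

open Set MeasureTheory Filter Topology

open scoped Real

theorem meas_int {E : Type*} [NormedAddCommGroup E] [NormedSpace ℝ E] [MeasurableSpace E]
    [BorelSpace E] [SecondCountableTopology E] {u : ℝ × ℝ → E} (hu : Measurable u) {a b : ℝ}
    (hab : a ≤ b) : Measurable fun θ : ℝ => ∫ s in a..b, u (θ, s) := by
  simp only [intervalIntegral.integral_of_le hab]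
  exact (hu.stronglyMeasurable.integral_prod_right' (ν := volume.restrict (Ioc a b))).measurable

theorem ii_of_bdd {E : Type*} [NormedAddCommGroup E] [MeasurableSpace E]
    [BorelSpace E] [SecondCountableTopology E] {u : ℝ → E} (hu : Measurable u) {C : ℝ}
    (hC : ∀ x, ‖u x‖ ≤ C) (a b : ℝ) : IntervalIntegrable u volume a b := by
  rw [intervalIntegrable_iff]
  refine Integrable.mono' (g := fun _ => C) (integrableOn_const (by simp) (by simp)) ?_ ?_
  · exact hu.stronglyMeasurable.aestronglyMeasurable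
  · exact Filter.Eventually.of_forall hC

/-- Translations are continuous in the mean. -/
theorem trans_cont {h : ℝ → ℂ} (hm : Measurable h) (hb : ∀ x, ‖h x‖ ≤ 1) :
    Tendsto (fun η : ℝ => ∫ θ in (0 : ℝ)..(2 * π), ‖h θ - h (θ + η)‖) (𝓝 0) (𝓝 0) := by
  have hpi := Real.pi_pos
  have hpi2 : (0 : ℝ) ≤ 2 * π := by positivity
  rw [Metric.tendsto_nhds]
  intro e he
  set F : ℝ → ℂ := (Icc (-1) (2 * π + 1)).indicator h with hF
  have hFm : Measurable F := hm.indicator measurableSet_Icc
  have hFb : ∀ x, ‖F x‖ ≤ 1 := by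
    intro x
    rw [hF]
    by_cases hx : x ∈ Icc (-1) (2 * π + 1)
    · rw [indicator_of_mem hx]; exact hb x
    · rw [indicator_of_notMem hx, norm_zero]; exact zero_le_one
  have hFi : Integrable F := by
    rw [hF, integrable_indicator_iff measurableSet_Icc]
    refine Integrable.mono' (g := fun _ => (1 : ℝ)) (integrableOn_const (by simp) (by simp)) ?_ ?_
    · exact hm.stronglyMeasurable.aestronglyMeasurable
    · exact Filter.Eventually.of_forall hb
  obtain ⟨g, hgs, hg1, hgc, hgi⟩ := hFi.exists_hasCompactSupport_integral_sub_le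
    (show (0 : ℝ) < e / 4 by linarith)
  have hcont : Continuous fun η : ℝ => ∫ θ in (0 : ℝ)..(2 * π), ‖g θ - g (θ + η)‖ := by
    apply intervalIntegral.continuous_parametric_intervalIntegral_of_continuous'
    fun_prop
  have h0 := hcont.tendsto 0
  simp only [add_zero, sub_self, norm_zero, intervalIntegral.integral_zero] at h0
  have h1 : ∀ᶠ η : ℝ in 𝓝 0, ∫ θ in (0 : ℝ)..(2 * π), ‖g θ - g (θ + η)‖ < e / 4 :=
    h0.eventually_lt_const (by linarith)
  have h2 : ∀ᶠ η : ℝ in 𝓝 0, |η| < 1 := by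
    have := (continuous_abs (G := ℝ)).tendsto 0
    rw [abs_zero] at this
    exact this.eventually_lt_const one_pos
  filter_upwards [h1, h2] with η k1 k2
  rw [abs_lt] at k2
  have hFg : Integrable fun x => ‖F x - g x‖ := (hFi.sub hgi).norm
  have hFg' : Integrable fun x => ‖F (x + η) - g (x + η)‖ := hFg.comp_add_right η
  have i1 : IntervalIntegrable (fun x => ‖F x - g x‖) volume 0 (2 * π) :=
    hFg.intervalIntegrable
  have i2 : IntervalIntegrable (fun x => ‖F (x + η) - g (x + η)‖) volume 0 (2 * π) :=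
    hFg'.intervalIntegrable
  have i3 : IntervalIntegrable (fun x => ‖g x - g (x + η)‖) volume 0 (2 * π) := by
    apply Continuous.intervalIntegrable
    fun_prop
  have i0 : IntervalIntegrable (fun θ => ‖h θ - h (θ + η)‖) volume 0 (2 * π) := by
    refine ii_of_bdd (C := 2) ?_ ?_ _ _
    · exact (hm.sub (hm.comp (measurable_id.add_const η))).norm
    · intro x
      rw [norm_norm]
      refine (norm_sub_le _ _).trans ?_
      have := hb x
      have := hb (x + η)
      linarith
  have hle : ∫ θ in (0 : ℝ)..(2 * π), ‖h θ - h (θ + η)‖ ≤ ∫ θ in (0 : ℝ)..(2 * π),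
      (‖F θ - g θ‖ + ‖F (θ + η) - g (θ + η)‖ + ‖g θ - g (θ + η)‖) := by
    refine intervalIntegral.integral_mono_on hpi2 i0 ((i1.add i2).add i3) fun θ hθ => ?_
    have e1 : h θ = F θ := by
      rw [hF, indicator_of_mem]
      exact ⟨by linarith [hθ.1], by linarith [hθ.2]⟩
    have e2 : h (θ + η) = F (θ + η) := by
      rw [hF, indicator_of_mem]
      exact ⟨by linarith [hθ.1], by linarith [hθ.2]⟩
    rw [e1, e2]
    have e3 : F θ - F (θ + η) = (F θ - g θ) - (F (θ + η) - g (θ + η)) + (g θ - g (θ + η)) := by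
      ring
    rw [e3]
    refine (norm_add_le _ _).trans ?_
    gcongr
    exact norm_sub_le _ _
  rw [intervalIntegral.integral_add (i1.add i2) i3, intervalIntegral.integral_add i1 i2] at hle
  have b1 : ∫ θ in (0 : ℝ)..(2 * π), ‖F θ - g θ‖ ≤ e / 4 := by
    rw [intervalIntegral.integral_of_le hpi2]
    refine (setIntegral_le_integral hFg ?_).trans hg1
    exact Filter.Eventually.of_forall fun x => norm_nonneg _
  have b2 : ∫ θ in (0 : ℝ)..(2 * π), ‖F (θ + η) - g (θ + η)‖ ≤ e / 4 := by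
    rw [intervalIntegral.integral_of_le hpi2]
    refine (setIntegral_le_integral hFg' ?_).trans ?_
    · exact Filter.Eventually.of_forall fun x => norm_nonneg _
    · rw [integral_add_right_eq_self (fun x => ‖F x - g x‖) η]
      exact hg1
  have hnn : 0 ≤ ∫ θ in (0 : ℝ)..(2 * π), ‖h θ - h (θ + η)‖ :=
    intervalIntegral.integral_nonneg hpi2 fun θ _ => norm_nonneg _
  rw [Real.dist_eq, sub_zero, abs_of_nonneg hnn]
  linarith

/-- The limit of the averages. -/
theorem exists_L {q : ℝ × ℝ → ℂ} (hq : Measurable q) (hqb : ∀ x, ‖q x‖ ≤ 1)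
    (hqp : ∀ θ η, q (θ + 2 * π, η) = q (θ, η)) : ∃ L : ℝ → ℂ, Measurable L ∧ (∀ θ, ‖L θ‖ ≤ 1) ∧
      (∀ θ, L (θ + 2 * π) = L θ) ∧ ∀ θ A, Tendsto (fun δ : ℝ => (1 / δ) *
        ∫ η in (0 : ℝ)..δ, ‖q (θ, η) - A‖) (𝓝[>] 0) (𝓝 0) → L θ = A := by
  set a : ℕ → ℝ → ℂ := fun m θ => ((m : ℂ) + 1) * ∫ η in (0 : ℝ)..(1 / ((m : ℝ) + 1)), q (θ, η)
    with ha
  have ham : ∀ m, StronglyMeasurable (a m) := fun m =>
    ((meas_int hq (by positivity)).const_mul _).stronglyMeasurable
  have hL0 : StronglyMeasurable fun θ => limUnder atTop fun m => a m θ :=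
    StronglyMeasurable.limUnder ham
  set L0 : ℝ → ℂ := fun θ => limUnder atTop fun m => a m θ with hL0'
  have hab : ∀ m θ, ‖a m θ‖ ≤ 1 := by
    intro m θ
    simp only [ha]
    have h1 := intervalIntegral.norm_integral_le_of_norm_le_const (a := 0)
      (b := 1 / ((m : ℝ) + 1)) (C := 1) (f := fun η : ℝ => q (θ, η)) (fun η _ => hqb _)
    rw [sub_zero, one_mul, abs_of_pos (by positivity)] at h1
    have h2 : ‖((m : ℂ) + 1)‖ = (m : ℝ) + 1 := by
      have : ((m : ℂ) + 1) = (((m : ℝ) + 1 : ℝ) : ℂ) := by push_cast; rfl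
      rw [this, Complex.norm_real, Real.norm_eq_abs, abs_of_pos (by positivity)]
    rw [norm_mul, h2]
    calc ((m : ℝ) + 1) * _ ≤ ((m : ℝ) + 1) * (1 / ((m : ℝ) + 1)) := by gcongr
      _ = 1 := by field_simp
  classical
  refine ⟨fun θ => if ‖L0 θ‖ ≤ 1 then L0 θ else 0, ?_, ?_, ?_, ?_⟩
  · refine Measurable.ite ?_ hL0.measurable measurable_const
    exact measurableSet_le hL0.measurable.norm measurable_const
  · intro θ
    beta_reduce
    split_ifs with h
    · exact h
    · rw [norm_zero]; exact zero_le_one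
  · intro θ
    have : L0 (θ + 2 * π) = L0 θ := by
      simp only [hL0', ha, hqp]
    simp only [this]
  · intro θ A hA
    have h1 : Tendsto (fun m : ℕ => a m θ) atTop (𝓝 A) := by
      have h2 : Tendsto (fun m : ℕ => 1 / ((m : ℝ) + 1)) atTop (𝓝[>] 0) := by
        rw [tendsto_nhdsWithin_iff]
        exact ⟨tendsto_one_div_add_atTop_nhds_zero_nat,
          Filter.Eventually.of_forall fun m => by simp only [mem_Ioi]; positivity⟩
      have h3 := hA.comp h2
      rw [tendsto_iff_norm_sub_tendsto_zero]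
      refine squeeze_zero (fun _ => norm_nonneg _) (fun m => ?_) h3
      simp only [Function.comp_apply, ha]
      have hm0 : (0 : ℝ) < 1 / ((m : ℝ) + 1) := by positivity
      have hm1 : ((m : ℂ) + 1) ≠ 0 := by exact_mod_cast Nat.succ_ne_zero m
      have hii : IntervalIntegrable (fun η : ℝ => q (θ, η)) volume 0 (1 / ((m : ℝ) + 1)) :=
        ii_of_bdd (hq.comp (measurable_const.prodMk measurable_id)) (fun x => hqb _) _ _
      have e1 : ((m : ℂ) + 1) * ∫ η in (0 : ℝ)..(1 / ((m : ℝ) + 1)), q (θ, η) =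
          ((m : ℂ) + 1) * (∫ η in (0 : ℝ)..(1 / ((m : ℝ) + 1)), (q (θ, η) - A)) + A := by
        rw [intervalIntegral.integral_sub hii intervalIntegrable_const,
          intervalIntegral.integral_const, sub_zero, Complex.real_smul]
        push_cast
        field_simp
        ring
      rw [e1, add_sub_cancel_right, norm_mul]
      have e2 : ‖((m : ℂ) + 1)‖ = (m : ℝ) + 1 := by
        have : ((m : ℂ) + 1) = (((m : ℝ) + 1 : ℝ) : ℂ) := by push_cast; rfl
        rw [this, Complex.norm_real, Real.norm_eq_abs, abs_of_pos (by positivity)]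
      rw [e2, one_div_one_div]
      refine mul_le_mul_of_nonneg_left ?_ (by positivity)
      exact intervalIntegral.norm_integral_le_integral_norm hm0.le
    have h4 : L0 θ = A := h1.limUnder_eq
    have h5 : ‖A‖ ≤ 1 := le_of_tendsto h1.norm (Filter.Eventually.of_forall fun m => hab m θ)
    simp only [h4, if_pos h5]

/-- Dominated convergence and Fubini. -/
theorem dct {q : ℝ × ℝ → ℂ} (hq : Measurable q) (hqb : ∀ x, ‖q x‖ ≤ 1) {L : ℝ → ℂ}
    (hL : Measurable L) (hLb : ∀ θ, ‖L θ‖ ≤ 1) {U : Set ℝ} (hU : MeasurableSet U)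
    (h : ∀ᵐ θ : ℝ, θ ∈ Ioo (-π) π → θ ∈ U → Tendsto (fun δ : ℝ => (1 / δ) *
        ∫ η in (0 : ℝ)..δ, ‖q (θ, η) - L θ‖) (𝓝[>] 0) (𝓝 0)) :
    Tendsto (fun δ : ℝ => (1 / δ) * ∫ η in (0 : ℝ)..δ, ∫ θ in (-π)..π,
      U.indicator (fun θ => ‖q (θ, η) - L θ‖) θ) (𝓝[>] 0) (𝓝 0) := by
  have hpi := Real.pi_pos
  set w : ℝ × ℝ → ℝ := fun x => U.indicator (fun θ => ‖q (θ, x.2) - L θ‖) x.1 with hw
  have hwm : Measurable w := by
    have e : w = (Prod.fst ⁻¹' U).indicator fun x : ℝ × ℝ => ‖q x - L x.1‖ := by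
      funext x
      rw [hw]
      simp only [indicator]
      rfl
    rw [e]
    exact (hq.sub (hL.comp measurable_fst)).norm.indicator (measurable_fst hU)
  have hwb : ∀ x, ‖w x‖ ≤ 2 := by
    intro x
    rw [hw]
    simp only
    by_cases hx : x.1 ∈ U
    · rw [indicator_of_mem hx, norm_norm]
      refine (norm_sub_le _ _).trans ?_
      have := hqb (x.1, x.2)
      have := hLb x.1
      linarith
    · rw [indicator_of_notMem hx, norm_zero]; norm_num
  have hwi : ∀ δ : ℝ, 0 < δ → ∫ η in (0 : ℝ)..δ, ∫ θ in (-π)..π, w (θ, η) =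
      ∫ θ in (-π)..π, ∫ η in (0 : ℝ)..δ, w (θ, η) := by
    intro δ hδ
    simp only [intervalIntegral.integral_of_le hδ.le,
      intervalIntegral.integral_of_le (show -π ≤ π by linarith)]
    have h2 : Integrable (Function.uncurry fun (η : ℝ) (θ : ℝ) => w (θ, η))
        ((volume.restrict (Ioc 0 δ)).prod (volume.restrict (Ioc (-π) π))) := by
      refine Integrable.mono' (g := fun _ => (2 : ℝ)) (integrable_const _) ?_
        (Filter.Eventually.of_forall fun x => hwb _)
      exact (hwm.comp measurable_swap).aestronglyMeasurable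
    exact integral_integral_swap h2
  have hmain : Tendsto (fun δ : ℝ => ∫ θ in (-π)..π, (1 / δ) * ∫ η in (0 : ℝ)..δ, w (θ, η))
      (𝓝[>] 0) (𝓝 (∫ θ in (-π)..π, (0 : ℝ))) := by
    refine intervalIntegral.tendsto_integral_filter_of_dominated_convergence (fun _ => (2 : ℝ))
      ?_ ?_ intervalIntegrable_const ?_
    · filter_upwards [self_mem_nhdsWithin] with δ hδ
      exact ((meas_int hwm (le_of_lt hδ)).const_mul _).aestronglyMeasurable
    · filter_upwards [self_mem_nhdsWithin] with δ hδ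
      refine Filter.Eventually.of_forall fun θ _ => ?_
      have hδ' : (0 : ℝ) < δ := hδ
      have h1 := intervalIntegral.norm_integral_le_of_norm_le_const (a := 0) (b := δ) (C := 2)
        (f := fun η : ℝ => w (θ, η)) (fun η _ => hwb _)
      rw [sub_zero, abs_of_pos hδ'] at h1
      rw [norm_mul, Real.norm_eq_abs, abs_of_pos (by positivity)]
      calc 1 / δ * _ ≤ 1 / δ * (2 * δ) := by gcongr
        _ = 2 := by field_simp
    · have hne : ∀ᵐ θ : ℝ, θ ≠ π := by
        rw [ae_iff]
        simp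
      filter_upwards [h, hne] with θ hθ hθne hmem
      rw [uIoc_of_le (by linarith)] at hmem
      by_cases hθU : θ ∈ U
      · have h1 := hθ ⟨hmem.1, lt_of_le_of_ne hmem.2 hθne⟩ hθU
        refine h1.congr fun δ => ?_
        simp only [hw, indicator_of_mem hθU]
      · have : ∀ δ : ℝ, (1 / δ) * ∫ η in (0 : ℝ)..δ, w (θ, η) = 0 := by
          intro δ
          simp only [hw, indicator_of_notMem hθU, intervalIntegral.integral_zero, mul_zero]
        simp only [this]
        exact tendsto_const_nhds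
  rw [intervalIntegral.integral_zero] at hmain
  refine hmain.congr' ?_
  filter_upwards [self_mem_nhdsWithin] with δ hδ
  rw [intervalIntegral.integral_const_mul, ← hwi δ hδ]

theorem per_int_real {g : ℝ → ℝ} (hg : ∀ θ, g (θ + 2 * π) = g θ) (a c : ℝ) :
    ∫ θ in a..(a + 2 * π), g (θ + c) = ∫ θ in (0 : ℝ)..(2 * π), g θ := by
  have hp : Function.Periodic g (2 * π) := hg
  rw [intervalIntegral.integral_comp_add_right]
  have h1 := hp.intervalIntegral_add_eq (a + c) 0
  rw [zero_add] at h1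
  rw [← h1]
  congr 1
  ring

/-- Comparison of the two integrals. -/
theorem shift {K : ℝ × ℝ → ℂ} (hK : Measurable K) (hKb : ∀ x, ‖K x‖ ≤ 1)
    (hKp : ∀ θ s, K (θ + 2 * π, s) = K (θ, s)) {L : ℝ → ℂ}
    (hL : Measurable L) (hLb : ∀ θ, ‖L θ‖ ≤ 1) (hLp : ∀ θ, L (θ + 2 * π) = L θ)
    {U : Set ℝ} (hU : MeasurableSet U) (hUp : ∀ θ, θ + 2 * π ∈ U ↔ θ ∈ U) (c σ : ℝ) :
    ∫ θ in (0 : ℝ)..(2 * π), U.indicator (fun θ => ‖K (θ, σ) - L θ‖) θ ≤
      (∫ θ in (-π)..π, U.indicator (fun θ => ‖K (θ + c, σ) - L θ‖) θ) +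
      (2 * ∫ θ in (0 : ℝ)..(2 * π), ‖U.indicator (fun _ => (1 : ℂ)) θ -
        U.indicator (fun _ => (1 : ℂ)) (θ + (-c))‖) +
      ∫ θ in (0 : ℝ)..(2 * π), ‖L θ - L (θ + (-c))‖ := by
  classical
  have hpi := Real.pi_pos
  have hpi2 : (0 : ℝ) ≤ 2 * π := by positivity
  set v : ℝ → ℝ := fun θ => U.indicator (fun θ => ‖K (θ + c, σ) - L θ‖) θ with hv
  have hvp : ∀ θ, v (θ + 2 * π) = v θ := by
    intro θ
    simp only [hv]
    by_cases h : θ ∈ U
    · rw [indicator_of_mem h, indicator_of_mem ((hUp θ).2 h), hLp,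
        show θ + 2 * π + c = θ + c + 2 * π by ring, hKp]
    · rw [indicator_of_notMem h, indicator_of_notMem (fun h' => h ((hUp θ).1 h'))]
  have e1 : ∫ θ in (-π)..π, v θ = ∫ θ in (0 : ℝ)..(2 * π), v (θ + (-c)) := by
    have h1 := per_int_real hvp (-π) 0
    have h2 := per_int_real hvp 0 (-c)
    rw [show -π + 2 * π = π by ring] at h1
    rw [zero_add] at h2
    simp only [add_zero] at h1
    rw [h1, h2]
  have e2 : ∀ θ, v (θ + (-c)) = U.indicator (fun _ => ‖K (θ, σ) - L (θ + (-c))‖) (θ + (-c)) := by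
    intro θ
    simp only [hv]
    by_cases h : θ + (-c) ∈ U
    · rw [indicator_of_mem h, indicator_of_mem h, show θ + -c + c = θ by ring]
    · rw [indicator_of_notMem h, indicator_of_notMem h]
  rw [e1]
  have mK : Measurable fun θ : ℝ => K (θ, σ) := hK.comp (measurable_id.prodMk measurable_const)
  have mKc : Measurable fun θ : ℝ => K (θ + c, σ) := mK.comp (measurable_id.add_const c)
  have mv : Measurable v := (mKc.sub hL).norm.indicator hU
  have mu : Measurable (U.indicator (fun _ => (1 : ℂ))) := measurable_const.indicator hU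
  have b2 : ∀ x y : ℂ, ‖x‖ ≤ 1 → ‖y‖ ≤ 1 → ‖‖x - y‖‖ ≤ 2 := by
    intro x y hx hy
    rw [norm_norm]
    refine (norm_sub_le _ _).trans ?_
    linarith
  have bu : ∀ θ, ‖U.indicator (fun _ => (1 : ℂ)) θ‖ ≤ 1 := by
    intro θ
    by_cases h : θ ∈ U
    · rw [indicator_of_mem h, norm_one]
    · rw [indicator_of_notMem h, norm_zero]; exact zero_le_one
  have i0 : IntervalIntegrable (fun θ => U.indicator (fun θ => ‖K (θ, σ) - L θ‖) θ) volume 0
      (2 * π) := by
    refine ii_of_bdd (C := 2) ((mK.sub hL).norm.indicator hU) (fun x => ?_) _ _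
    by_cases h : x ∈ U
    · rw [indicator_of_mem h]; exact b2 _ _ (hKb _) (hLb _)
    · rw [indicator_of_notMem h, norm_zero]; norm_num
  have i1 : IntervalIntegrable (fun θ => v (θ + (-c))) volume 0 (2 * π) := by
    refine ii_of_bdd (C := 2) (mv.comp (measurable_id.add_const (-c))) (fun x => ?_) _ _
    change ‖v (x + (-c))‖ ≤ 2
    rw [e2]
    by_cases h : x + (-c) ∈ U
    · rw [indicator_of_mem h]; exact b2 _ _ (hKb _) (hLb _)
    · rw [indicator_of_notMem h, norm_zero]; norm_num
  have i2 : IntervalIntegrable (fun θ => ‖U.indicator (fun _ => (1 : ℂ)) θ -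
      U.indicator (fun _ => (1 : ℂ)) (θ + (-c))‖) volume 0 (2 * π) :=
    ii_of_bdd (C := 2) (mu.sub (mu.comp (measurable_id.add_const (-c)))).norm
      (fun x => b2 _ _ (bu _) (bu _)) _ _
  have i3 : IntervalIntegrable (fun θ => ‖L θ - L (θ + (-c))‖) volume 0 (2 * π) :=
    ii_of_bdd (C := 2) (hL.sub (hL.comp (measurable_id.add_const (-c)))).norm
      (fun x => b2 _ _ (hLb _) (hLb _)) _ _
  rw [← intervalIntegral.integral_const_mul, ← intervalIntegral.integral_add i1 (i2.const_mul 2),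
    ← intervalIntegral.integral_add (i1.add (i2.const_mul 2)) i3]
  refine intervalIntegral.integral_mono_on hpi2 i0 ((i1.add (i2.const_mul 2)).add i3)
    fun θ _ => ?_
  rw [e2]
  by_cases h1 : θ ∈ U
  · by_cases h2 : θ + (-c) ∈ U
    · simp only [indicator_of_mem h1, indicator_of_mem h2, sub_self, norm_zero, mul_zero, add_zero]
      have e3 : K (θ, σ) - L θ = (K (θ, σ) - L (θ + (-c))) - (L θ - L (θ + (-c))) := by ring
      rw [e3]
      exact norm_sub_le _ _
    · simp only [indicator_of_mem h1, indicator_of_notMem h2, sub_zero, norm_one, mul_one, zero_add]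
      have := b2 _ _ (hKb (θ, σ)) (hLb θ)
      rw [norm_norm] at this
      have := norm_nonneg (L θ - L (θ + (-c)))
      linarith
  · rw [indicator_of_notMem h1]
    have h3 : 0 ≤ U.indicator (fun _ => ‖K (θ, σ) - L (θ + (-c))‖) (θ + (-c)) :=
      indicator_nonneg (fun _ _ => norm_nonneg _) _
    positivity

/-- The change of variables. -/
theorem subst_sin {W : ℝ → ℝ} (hW : Measurable W) (hW0 : ∀ s, 0 ≤ W s) {C : ℝ}
    (hWC : ∀ s, W s ≤ C) {t : ℝ} (ht : 0 < t)
    (h : Tendsto (fun δ : ℝ => (1 / δ) * ∫ η in (0 : ℝ)..δ, W (t * Real.sin η)) (𝓝[>] 0) (𝓝 0)) :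
    Tendsto (fun r : ℝ => (1 / r) * ∫ s in (0 : ℝ)..r, W s) (𝓝[>] 0) (𝓝 0) := by
  have hpi := Real.pi_pos
  have t1 : Tendsto (fun r : ℝ => Real.arcsin (r / t)) (𝓝[>] 0) (𝓝[>] 0) := by
    rw [tendsto_nhdsWithin_iff]
    constructor
    · have : Continuous fun r : ℝ => Real.arcsin (r / t) :=
        Real.continuous_arcsin.comp (continuous_id.div_const t)
      have h4 := this.tendsto 0
      rw [zero_div, Real.arcsin_zero] at h4
      exact h4.mono_left nhdsWithin_le_nhds
    · filter_upwards [self_mem_nhdsWithin] with r hr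
      exact Real.arcsin_pos.2 (div_pos hr ht)
  have h1 := (h.comp t1).const_mul (π / 2)
  rw [mul_zero] at h1
  refine squeeze_zero' ?_ ?_ h1
  · filter_upwards [self_mem_nhdsWithin] with r hr
    have hr' : (0 : ℝ) < r := hr
    exact mul_nonneg (by positivity) (intervalIntegral.integral_nonneg hr'.le fun s _ => hW0 s)
  · filter_upwards [Ioo_mem_nhdsGT ht] with r hr
    simp only [Function.comp_apply]
    set δ := Real.arcsin (r / t) with hδ
    have hq0 : 0 < r / t := div_pos hr.1 ht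
    have hq1 : r / t < 1 := by rw [div_lt_one ht]; exact hr.2
    have hδ0 : 0 < δ := Real.arcsin_pos.2 hq0
    have hδ1 : δ < π / 2 := by rw [hδ, Real.arcsin_lt_pi_div_two]; exact hq1
    have hsin : Real.sin δ = r / t := Real.sin_arcsin (by linarith) hq1.le
    have himg : (fun η => t * Real.sin η) '' Ioo 0 δ = Ioo 0 r := by
      ext s
      constructor
      · rintro ⟨η, ⟨g1, g2⟩, rfl⟩
        have k1 : 0 < Real.sin η := Real.sin_pos_of_pos_of_lt_pi g1 (by linarith)
        have k2 : Real.sin η < Real.sin δ :=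
          Real.sin_lt_sin_of_lt_of_le_pi_div_two (by linarith) hδ1.le g2
        refine ⟨mul_pos ht k1, ?_⟩
        rw [hsin, lt_div_iff₀ ht] at k2
        linarith
      · rintro ⟨g1, g2⟩
        have k1 : 0 < s / t := div_pos g1 ht
        have k2 : s / t < r / t := by gcongr
        refine ⟨Real.arcsin (s / t), ⟨Real.arcsin_pos.2 k1, ?_⟩, ?_⟩
        · exact Real.arcsin_lt_arcsin (by linarith) k2 hq1.le
        · simp only
          rw [Real.sin_arcsin (by linarith) (by linarith)]
          field_simp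
    have hinj : InjOn (fun η => t * Real.sin η) (Ioo 0 δ) := by
      intro x hx y hy hxy
      have : Real.sin x = Real.sin y := mul_left_cancel₀ ht.ne' hxy
      exact Real.injOn_sin ⟨by linarith [hx.1], by linarith [hx.2]⟩
        ⟨by linarith [hy.1], by linarith [hy.2]⟩ this
    have hcv := integral_image_eq_integral_abs_deriv_smul (s := Ioo 0 δ)
      (f := fun η => t * Real.sin η) (f' := fun η => t * Real.cos η) measurableSet_Ioo
      (fun x _ => ((Real.hasDerivAt_sin x).const_mul t).hasDerivWithinAt) hinj W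
    rw [himg] at hcv
    have hWs : Measurable fun η : ℝ => W (t * Real.sin η) :=
      hW.comp (Real.measurable_sin.const_mul t)
    have hWn : ∀ s, ‖W s‖ ≤ C := fun s => by
      rw [Real.norm_eq_abs, abs_of_nonneg (hW0 s)]; exact hWC s
    have e1 : ∫ s in (0 : ℝ)..r, W s = ∫ η in (0 : ℝ)..δ, |t * Real.cos η| * W (t * Real.sin η) := by
      rw [intervalIntegral.integral_of_le hr.1.le, intervalIntegral.integral_of_le hδ0.le,
        integral_Ioc_eq_integral_Ioo, integral_Ioc_eq_integral_Ioo, hcv]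
      rfl
    have e2 : ∫ η in (0 : ℝ)..δ, |t * Real.cos η| * W (t * Real.sin η) ≤
        ∫ η in (0 : ℝ)..δ, t * W (t * Real.sin η) := by
      have hCn : 0 ≤ C := (hW0 0).trans (hWC 0)
      refine intervalIntegral.integral_mono_on hδ0.le ?_ ?_ fun η _ => ?_
      · refine ii_of_bdd (C := t * C) ?_ (fun x => ?_) _ _
        · exact ((Real.measurable_cos.const_mul t).abs).mul hWs
        · rw [norm_mul]
          refine mul_le_mul ?_ (hWn _) (norm_nonneg _) ht.le
          rw [Real.norm_eq_abs, abs_abs, abs_mul, abs_of_pos ht]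
          have := Real.abs_cos_le_one x
          nlinarith
      · refine ii_of_bdd (C := t * C) (hWs.const_mul t) (fun x => ?_) _ _
        rw [norm_mul, Real.norm_eq_abs, abs_of_pos ht]
        exact mul_le_mul_of_nonneg_left (hWn _) ht.le
      · refine mul_le_mul_of_nonneg_right ?_ (hW0 _)
        rw [abs_mul, abs_of_pos ht]
        have := Real.abs_cos_le_one η
        nlinarith
    rw [intervalIntegral.integral_const_mul] at e2
    rw [e1]
    have hI : 0 ≤ ∫ η in (0 : ℝ)..δ, W (t * Real.sin η) :=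
      intervalIntegral.integral_nonneg hδ0.le fun s _ => hW0 _
    have e3 : δ ≤ π / 2 * (r / t) := by
      have h2 := Real.mul_le_sin hδ0.le hδ1.le
      rw [hsin] at h2
      have h3 : δ = π / 2 * (2 / π * δ) := by field_simp
      rw [h3]
      gcongr
    have hr0 : (0 : ℝ) < r := hr.1
    calc 1 / r * ∫ η in (0 : ℝ)..δ, |t * Real.cos η| * W (t * Real.sin η)
        ≤ 1 / r * (t * ∫ η in (0 : ℝ)..δ, W (t * Real.sin η)) := by gcongr
      _ = (t / r * δ) * ((1 / δ) * ∫ η in (0 : ℝ)..δ, W (t * Real.sin η)) := by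
          field_simp
      _ ≤ (π / 2) * ((1 / δ) * ∫ η in (0 : ℝ)..δ, W (t * Real.sin η)) := by
          refine mul_le_mul_of_nonneg_right ?_ (by positivity)
          calc t / r * δ ≤ t / r * (π / 2 * (r / t)) := by gcongr
            _ = π / 2 := by field_simp

/-- The limits along one ray give limits in the mean over the parallel lines. -/
theorem ray_to_lines {K : ℝ × ℝ → ℂ} (hK : Measurable K) (hKb : ∀ x, ‖K x‖ ≤ 1)
    (hKp : ∀ θ s, K (θ + 2 * π, s) = K (θ, s)) {U : Set ℝ} (hU : MeasurableSet U)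
    (hUp : ∀ θ, θ + 2 * π ∈ U ↔ θ ∈ U) {ε t : ℝ} (ht : 0 < t)
    {A : ℝ → ℂ} (hA : ∀ᵐ θ : ℝ, θ ∈ Ioo (-π) π → θ ∈ U → Tendsto (fun δ : ℝ => (1 / δ) *
        ∫ η in (0 : ℝ)..δ, ‖K (θ + ε * η, ε * (t * Real.sin η)) - A θ‖) (𝓝[>] 0) (𝓝 0)) :
    ∃ L : ℝ → ℂ, Measurable L ∧ (∀ θ, ‖L θ‖ ≤ 1) ∧ (∀ θ, L (θ + 2 * π) = L θ) ∧
      Tendsto (fun r : ℝ => (1 / r) * ∫ s in (0 : ℝ)..r, ∫ θ in (0 : ℝ)..(2 * π),
        U.indicator (fun θ => ‖K (θ, ε * s) - L θ‖) θ) (𝓝[>] 0) (𝓝 0) := by
  have hpi := Real.pi_pos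
  have hpi2 : (0 : ℝ) ≤ 2 * π := by positivity
  set q : ℝ × ℝ → ℂ := fun x => K (x.1 + ε * x.2, ε * (t * Real.sin x.2)) with hq
  have hqm : Measurable q := by
    rw [hq]
    apply hK.comp
    fun_prop
  obtain ⟨L, hL, hLb, hLp, hLA⟩ := exists_L (q := q) hqm (fun x => hKb _) (fun θ η => by
    simp only [hq]
    rw [show θ + 2 * π + ε * η = θ + ε * η + 2 * π by ring, hKp])
  refine ⟨L, hL, hLb, hLp, ?_⟩
  have hmean := dct hqm (fun x => hKb _) hL hLb hU (by
    filter_upwards [hA] with θ hθ h1 h2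
    have h3 := hθ h1 h2
    have h4 := hLA θ (A θ) h3
    rw [h4]
    exact h3)
  -- the function of the distance
  set W : ℝ → ℝ := fun s => ∫ θ in (0 : ℝ)..(2 * π),
    U.indicator (fun θ => ‖K (θ, ε * s) - L θ‖) θ with hW
  have hind : Measurable fun x : ℝ × ℝ => U.indicator (fun θ => ‖K (θ, ε * x.1) - L θ‖) x.2 := by
    have e : (fun x : ℝ × ℝ => U.indicator (fun θ => ‖K (θ, ε * x.1) - L θ‖) x.2) =
        (Prod.snd ⁻¹' U).indicator fun x : ℝ × ℝ => ‖K (x.2, ε * x.1) - L x.2‖ := by
      funext x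
      simp only [indicator]
      rfl
    rw [e]
    refine Measurable.indicator ?_ (measurable_snd hU)
    refine Measurable.norm (Measurable.sub ?_ (hL.comp measurable_snd))
    apply hK.comp
    fun_prop
  have hWm : Measurable W := meas_int hind hpi2
  have hW0 : ∀ s, 0 ≤ W s := fun s => intervalIntegral.integral_nonneg hpi2 fun θ _ =>
    indicator_nonneg (fun _ _ => norm_nonneg _) _
  have hWC : ∀ s, W s ≤ 2 * (2 * π) := by
    intro s
    have h1 := intervalIntegral.norm_integral_le_of_norm_le_const (a := 0) (b := 2 * π) (C := 2)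
      (f := fun θ : ℝ => U.indicator (fun θ => ‖K (θ, ε * s) - L θ‖) θ) (fun θ _ => by
        by_cases h : θ ∈ U
        · rw [indicator_of_mem h, norm_norm]
          refine (norm_sub_le _ _).trans ?_
          have := hKb (θ, ε * s)
          have := hLb θ
          linarith
        · rw [indicator_of_notMem h, norm_zero]; norm_num)
    rw [sub_zero, abs_of_nonneg hpi2] at h1
    exact (le_abs_self _).trans h1
  refine subst_sin hWm hW0 hWC ht ?_
  -- comparison
  have mu : Measurable (U.indicator (fun _ => (1 : ℂ))) := measurable_const.indicator hU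
  have bu : ∀ θ, ‖U.indicator (fun _ => (1 : ℂ)) θ‖ ≤ 1 := by
    intro θ
    by_cases h : θ ∈ U
    · rw [indicator_of_mem h, norm_one]
    · rw [indicator_of_notMem h, norm_zero]; exact zero_le_one
  have hc0 : Tendsto (fun η : ℝ => -(ε * η)) (𝓝 0) (𝓝 0) := by
    have : Continuous fun η : ℝ => -(ε * η) := by fun_prop
    have := this.tendsto 0
    simpa using this
  have c1 := ((trans_cont mu bu).comp hc0).const_mul 2
  have c2 := (trans_cont hL hLb).comp hc0
  have c3 := c1.add c2
  rw [mul_zero, add_zero] at c3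
  rw [Metric.tendsto_nhds]
  intro e he
  have c4 := c3.eventually_lt_const (show (0 : ℝ) < e / 2 by linarith)
  obtain ⟨δ0, hδ0, hc⟩ := Metric.eventually_nhds_iff.1 c4
  rw [Metric.tendsto_nhds] at hmean
  filter_upwards [hmean (e / 2) (by linarith), Ioo_mem_nhdsGT hδ0] with δ h1 h2
  have hδp : (0 : ℝ) < δ := h2.1
  rw [Real.dist_eq, sub_zero] at h1 ⊢
  set a : ℝ → ℝ := fun η => ∫ θ in (-π)..π, U.indicator (fun θ => ‖q (θ, η) - L θ‖) θ with ha
  have hWs : Measurable fun η : ℝ => W (t * Real.sin η) :=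
    hWm.comp (Real.measurable_sin.const_mul t)
  have iW : IntervalIntegrable (fun η : ℝ => W (t * Real.sin η)) volume 0 δ :=
    ii_of_bdd (C := 2 * (2 * π)) hWs (fun x => by
      rw [Real.norm_eq_abs, abs_of_nonneg (hW0 _)]; exact hWC _) _ _
  have hindq : Measurable fun x : ℝ × ℝ => U.indicator (fun θ => ‖q (θ, x.1) - L θ‖) x.2 := by
    have e : (fun x : ℝ × ℝ => U.indicator (fun θ => ‖q (θ, x.1) - L θ‖) x.2) =
        (Prod.snd ⁻¹' U).indicator fun x : ℝ × ℝ => ‖q (x.2, x.1) - L x.2‖ := by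
      funext x
      simp only [indicator]
      rfl
    rw [e]
    refine Measurable.indicator ?_ (measurable_snd hU)
    refine Measurable.norm (Measurable.sub ?_ (hL.comp measurable_snd))
    exact hqm.comp measurable_swap
  have ham : Measurable a := meas_int hindq (by linarith)
  have ia : IntervalIntegrable a volume 0 δ := by
    refine ii_of_bdd (C := 2 * |π - (-π)|) ham (fun x => ?_) _ _
    refine intervalIntegral.norm_integral_le_of_norm_le_const fun θ _ => ?_
    by_cases h : θ ∈ U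
    · rw [indicator_of_mem h, norm_norm]
      refine (norm_sub_le _ _).trans ?_
      have := hKb (θ + ε * x, ε * (t * Real.sin x))
      have := hLb θ
      simp only [hq]
      linarith
    · rw [indicator_of_notMem h, norm_zero]; norm_num
  have hle : ∫ η in (0 : ℝ)..δ, W (t * Real.sin η) ≤ ∫ η in (0 : ℝ)..δ, (a η + e / 2) := by
    refine intervalIntegral.integral_mono_on hδp.le iW (ia.add intervalIntegrable_const)
      fun η hη => ?_
    have h3 := shift hK hKb hKp hL hLb hLp hU hUp (ε * η) (ε * (t * Real.sin η))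
    have h4 : dist η 0 < δ0 := by
      rw [Real.dist_eq, sub_zero, abs_of_nonneg hη.1]
      exact hη.2.trans_lt h2.2
    have h5 := hc h4
    simp only [Function.comp_apply] at h5
    simp only [hW, ha, hq]
    linarith
  rw [intervalIntegral.integral_add ia intervalIntegrable_const,
    intervalIntegral.integral_const, sub_zero, smul_eq_mul] at hle
  have hn : 0 ≤ (1 / δ) * ∫ η in (0 : ℝ)..δ, W (t * Real.sin η) :=
    mul_nonneg (by positivity) (intervalIntegral.integral_nonneg hδp.le fun s _ => hW0 _)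
  rw [abs_of_nonneg hn]
  calc (1 / δ) * ∫ η in (0 : ℝ)..δ, W (t * Real.sin η)
      ≤ (1 / δ) * ((∫ η in (0 : ℝ)..δ, a η) + δ * (e / 2)) := by gcongr
    _ = (1 / δ) * (∫ η in (0 : ℝ)..δ, a η) + e / 2 := by field_simp
    _ < e / 2 + e / 2 := by
        have := (le_abs_self _).trans_lt h1
        linarith
    _ = e := by ring

/-- Polar coordinates. -/
theorem polar_ae {P : ℂ → Prop} (hP : ∀ᵐ z : ℂ, P z) (b : ℂ) {r : ℝ} (hr : 0 < r) :
    ∃ t : ℝ, 0 < t ∧ t ≤ r ∧ ∀ᵐ θ : ℝ, θ ∈ Ioo (-π) π →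
      P (b - t • Complex.exp ((θ : ℂ) * Complex.I)) := by
  have hpi := Real.pi_pos
  have hP' : ∀ᵐ z : ℂ, P (b - z) :=
    (Measure.measurePreserving_sub_left (volume : Measure ℂ) b).quasiMeasurePreserving.ae hP
  obtain ⟨N, hN1, hN2, hN3⟩ : ∃ N : Set ℂ, {z | ¬ P (b - z)} ⊆ N ∧ MeasurableSet N ∧
      volume N = 0 := exists_measurable_superset_of_null (ae_iff.1 hP')
  have h1 := Complex.lintegral_comp_polarCoord_symm (N.indicator (fun _ => (1 : ENNReal)))
  rw [lintegral_indicator hN2, lintegral_const, Measure.restrict_apply_univ, hN3, mul_zero] at h1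
  have hmeas : Measurable fun x : ℝ × ℝ => ENNReal.ofReal x.1 •
      N.indicator (fun _ => (1 : ENNReal)) (Complex.polarCoord.symm x) := by
    have h2 : Measurable (fun x : ℝ × ℝ => Complex.polarCoord.symm x) := by
      have : (fun x : ℝ × ℝ => Complex.polarCoord.symm x) = fun x : ℝ × ℝ =>
          (x.1 : ℂ) * (Real.cos x.2 + Real.sin x.2 * Complex.I) := by
        funext x
        exact Complex.polarCoord_symm_apply x
      rw [this]
      fun_prop
    exact (ENNReal.measurable_ofReal.comp measurable_fst).mul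
      ((measurable_const.indicator hN2).comp h2)
  rw [lintegral_eq_zero_iff hmeas] at h1
  have h2 : ∀ᵐ x : ℝ × ℝ ∂((volume.restrict (Ioi (0 : ℝ))).prod
      (volume.restrict (Ioo (-π) π))), ENNReal.ofReal x.1 •
      N.indicator (fun _ => (1 : ENNReal)) (Complex.polarCoord.symm x) = 0 := by
    rw [Measure.prod_restrict]
    rw [polarCoord_target] at h1
    exact h1
  have h3 := Measure.ae_ae_of_ae_prod h2
  rw [ae_restrict_iff' measurableSet_Ioi] at h3
  -- a good radius
  have h4 : ∃ t ∈ Ioo 0 r, ∀ᵐ θ ∂(volume.restrict (Ioo (-π) π)), ENNReal.ofReal t •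
      N.indicator (fun _ => (1 : ENNReal)) (Complex.polarCoord.symm (t, θ)) = 0 := by
    by_contra hcon
    have h5 : Ioo 0 r ⊆ {t : ℝ | ¬ (t ∈ Ioi (0 : ℝ) → ∀ᵐ θ ∂(volume.restrict (Ioo (-π) π)),
        ENNReal.ofReal t • N.indicator (fun _ => (1 : ENNReal))
          (Complex.polarCoord.symm (t, θ)) = 0)} := by
      intro t ht h
      exact hcon ⟨t, ht, h ht.1⟩
    have h6 : volume (Ioo 0 r) = 0 := measure_mono_null h5 (ae_iff.1 h3)
    rw [Real.volume_Ioo, sub_zero, ENNReal.ofReal_eq_zero] at h6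
    linarith
  obtain ⟨t, ht, h5⟩ := h4
  refine ⟨t, ht.1, ht.2.le, ?_⟩
  rw [ae_restrict_iff' measurableSet_Ioo] at h5
  filter_upwards [h5] with θ hθ hmem
  have h6 := hθ hmem
  rw [smul_eq_mul, mul_eq_zero] at h6
  have h7 : N.indicator (fun _ => (1 : ENNReal)) (Complex.polarCoord.symm (t, θ)) = 0 := by
    rcases h6 with h | h
    · rw [ENNReal.ofReal_eq_zero] at h
      exact absurd ht.1 (not_lt.2 h)
    · exact h
  have h8 : Complex.polarCoord.symm (t, θ) ∉ N := by
    intro hmem
    rw [indicator_of_mem hmem] at h7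
    exact one_ne_zero h7
  have h9 : Complex.polarCoord.symm (t, θ) = t • Complex.exp ((θ : ℂ) * Complex.I) := by
    rw [Complex.polarCoord_symm_apply, Complex.exp_mul_I, Complex.real_smul]
    push_cast
    rfl
  rw [← h9]
  by_contra hcon
  exact h8 (hN1 hcon)

end Pool.Agent.Zk80.RFB
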