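import Pool.Agent.Zk55.RF.Base
import Pool.Agent.Zk80.RFB0

set_option autoImplicit false

/-!
One-sided limits of an invariant function on the lines near a vertex (helper80, for helper55).
-/

namespace Pool.Agent.Zk80.RF

open Complex Set MeasureTheory Filter Topology Pool.Agent.W780.PG Pool.Agent.W780.BB
  Pool.Agent.TH578.BE Pool.Agent.K3h17.BK Pool.Agent.Zk55.CF Pool.Agent.Zk55.RF

open scoped Real ComplexConjugate

variable {n : ℕ} {p : Fin (n + 3) → ℂ} {χ : Fin (n + 3) → ℂ} {f : ℂ × ℝ → ℂ}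

theorem inc_per (j : Fin (n + 3)) (θ : ℝ) : θ + 2 * π ∈ Inc p j ↔ θ ∈ Inc p j := by
  unfold Inc
  rw [Set.mem_ofPred_eq, Set.mem_ofPred_eq,
    show θ + 2 * π - tau p j = θ - tau p j + 2 * π by ring,
    show θ + 2 * π - tau p (j - 1) = θ - tau p (j - 1) + 2 * π by ring, Real.sin_add_two_pi,
    Real.sin_add_two_pi]

theorem ray_line (b : ℂ) (θ t η : ℝ) :
    (conj (dir (θ + η)) * (b - t • dir θ - b)).im = t * Real.sin η := by
  have e : conj (dir (θ + η)) * (b - t • dir θ - b) = ((-t : ℝ) : ℂ) * dir (-η) := by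
    have h1 : b - t • dir θ - b = ((-t : ℝ) : ℂ) * dir θ := by
      rw [real_smul]; push_cast; ring
    rw [h1, mul_left_comm, dir_conj, dir_mul]
    congr 2
    ring
  rw [e, Complex.im_ofReal_mul]
  unfold dir
  rw [Complex.exp_ofReal_mul_I_im, Real.sin_neg]
  ring

/-- The limits from the side `ε`, for the incoming directions at the vertex `j`. -/
theorem side_lim (hp : IsConvexPolygon p) (hf : Measurable f) (hb : ∀ x, ‖f x‖ ≤ 1)
    (hE : IsEigenfunction p 0 χ f) {G : ℂ → ℝ → ℂ} {ε : ℝ} (hε : ε = 1 ∨ ε = -1)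
    (hG : Sided p f ε G) (j : Fin (n + 3)) : ∃ L : ℝ → ℂ, Measurable L ∧ (∀ θ, ‖L θ‖ ≤ 1) ∧
      (∀ θ, L (θ + 2 * π) = L θ) ∧ Tendsto (fun r : ℝ => (1 / r) * ∫ s in (0 : ℝ)..r,
        ∫ θ in (0 : ℝ)..(2 * π), (Inc p j).indicator (fun θ => ‖Kv p f j (θ, ε * s) - L θ‖) θ)
        (𝓝[>] 0) (𝓝 0) := by
  obtain ⟨r2, hr2, hin⟩ := mem_of_inc hp j
  obtain ⟨t, ht0, htr, ht⟩ := Pool.Agent.Zk80.RFB.polar_ae hG (p j) hr2
  refine Pool.Agent.Zk80.RFB.ray_to_lines (K := Kv p f j) (Kv_meas hp hf j)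
    (Kv_bound hp hE hb j) (Kv_per hE j) (inc_meas j) (inc_per j) ht0
    (A := fun θ => G (p j - t • dir θ) θ) ?_
  filter_upwards [ht] with θ hθ h1 h2
  have hreg : p j - t • dir θ ∈ reg p := hin θ h2 t ht0 htr
  have h3 := hθ h1 hreg θ
  refine h3.congr fun δ => ?_
  congr 1
  refine intervalIntegral.integral_congr fun η _ => ?_
  have h4 : Kv p f j (θ + ε * η, ε * (t * Real.sin η)) = f (p j - t • dir θ, θ + ε * η) := by
    have h5 := Fv_ln hp hE hreg (θ + ε * η)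
    rw [ln_lb (p j), ray_line] at h5
    unfold Kv
    simp only
    have h6 : ε * (t * Real.sin η) = t * Real.sin (ε * η) := by
      rcases hε with h | h
      · rw [h, one_mul, one_mul]
      · rw [h, neg_mul, one_mul, neg_mul, one_mul, Real.sin_neg, mul_neg]
    rw [h6]
    exact h5
  rw [h4]
  rfl

end Pool.Agent.Zk80.RF
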