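import Pool.Agent.Zk55.RF.Base2

set_option autoImplicit false

/-!
One-sided limits of regulated fibres (helper80, for helper55).
-/

namespace Pool.Agent.Zk80.RF

open Complex Set MeasureTheory Filter Topology Pool.Agent.W780.PG Pool.Agent.W780.BB
  Pool.Agent.TH578.BE Pool.Agent.K3h17.BK Pool.Agent.Zk55.CF Pool.Agent.Zk55.RF

open scoped Real ComplexConjugate

variable {n : ℕ} {p : Fin (n + 3) → ℂ} {f : ℂ × ℝ → ℂ}

/-- Averages of a function with a limit at zero. -/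
theorem avg_zero {v w : ℝ → ℝ} (hvw : ∀ᵐ η : ℝ, v η = w η)
    (hw : Tendsto w (𝓝[>] 0) (𝓝 0)) :
    Tendsto (fun δ : ℝ => (1 / δ) * ∫ η in (0 : ℝ)..δ, v η) (𝓝[>] 0) (𝓝 0) := by
  rw [Metric.tendsto_nhds]
  intro e he
  have h1 : ∀ᶠ η : ℝ in 𝓝[>] 0, dist (w η) 0 < e / 2 :=
    (Metric.tendsto_nhds.1 hw) (e / 2) (by linarith)
  rw [eventually_nhdsWithin_iff, Metric.eventually_nhds_iff] at h1
  obtain ⟨δ0, hδ0, h2⟩ := h1
  filter_upwards [Ioo_mem_nhdsGT hδ0] with δ hδ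
  have hδp : (0 : ℝ) < δ := hδ.1
  have h3 : ‖∫ η in (0 : ℝ)..δ, v η‖ ≤ e / 2 * |δ - 0| := by
    apply intervalIntegral.norm_integral_le_of_norm_le_const_ae
    filter_upwards [hvw] with η hη hmem
    rw [uIoc_of_le hδp.le] at hmem
    rw [hη]
    have h4 := h2 (y := η) (by
      rw [Real.dist_eq, sub_zero, abs_of_pos hmem.1]
      exact hmem.2.trans_lt hδ.2) hmem.1
    rw [Real.dist_eq, sub_zero] at h4
    exact h4.le
  rw [sub_zero, abs_of_pos hδp] at h3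
  rw [Real.dist_eq, sub_zero, abs_mul, abs_of_pos (by positivity : (0 : ℝ) < 1 / δ)]
  rw [Real.norm_eq_abs] at h3
  calc 1 / δ * |∫ η in (0 : ℝ)..δ, v η| ≤ 1 / δ * (e / 2 * δ) := by gcongr
    _ = e / 2 := by field_simp
    _ < e := by linarith

/-- One-sided averages of a function which agrees with a regulated one. -/
theorem side_avg {u g : ℝ → ℂ} (hu : ∀ᵐ θ, u θ = g θ) {ε : ℝ} (hε : ε = 1 ∨ ε = -1) {θ : ℝ} {r : ℂ}
    (hr : Tendsto (fun η : ℝ => g (θ + ε * η)) (𝓝[>] 0) (𝓝 r)) :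
    Tendsto (fun δ : ℝ => (1 / δ) * ∫ η in (0 : ℝ)..δ, ‖u (θ + ε * η) - r‖) (𝓝[>] 0) (𝓝 0) := by
  refine avg_zero (w := fun η => ‖g (θ + ε * η) - r‖) ?_ ?_
  · have h1 : ∀ᵐ η : ℝ, u (θ + ε * η) = g (θ + ε * η) := by
      rcases hε with h | h
      · rw [h]
        simp only [one_mul]
        exact (measurePreserving_add_left (volume : Measure ℝ) θ).quasiMeasurePreserving.ae hu
      · rw [h]
        simp only [neg_mul, one_mul, ← sub_eq_add_neg]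
        exact (Measure.measurePreserving_sub_left (volume : Measure ℝ) θ).quasiMeasurePreserving.ae
          hu
    filter_upwards [h1] with η hη
    rw [hη]
  · exact (tendsto_iff_norm_sub_tendsto_zero).1 hr

theorem tendsto_right (θ : ℝ) : Tendsto (fun η : ℝ => θ + 1 * η) (𝓝[>] 0) (𝓝[>] θ) := by
  rw [tendsto_nhdsWithin_iff]
  constructor
  · have : Continuous fun η : ℝ => θ + 1 * η := by fun_prop
    have h := this.tendsto 0
    rw [mul_zero, add_zero] at h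
    exact h.mono_left nhdsWithin_le_nhds
  · filter_upwards [self_mem_nhdsWithin] with η hη
    have : (0 : ℝ) < η := hη
    show θ < θ + 1 * η
    linarith

theorem tendsto_left (θ : ℝ) : Tendsto (fun η : ℝ => θ + -1 * η) (𝓝[>] 0) (𝓝[<] θ) := by
  rw [tendsto_nhdsWithin_iff]
  constructor
  · have : Continuous fun η : ℝ => θ + -1 * η := by fun_prop
    have h := this.tendsto 0
    rw [mul_zero, add_zero] at h
    exact h.mono_left nhdsWithin_le_nhds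
  · filter_upwards [self_mem_nhdsWithin] with η hη
    have : (0 : ℝ) < η := hη
    show θ + -1 * η < θ
    linarith

/-- Limits of limits. -/
theorem lim_lim {g S : ℝ → ℂ} {s : Set ℝ} (hs : IsOpen s) {θ : ℝ} {r : ℂ}
    (h : Tendsto g (𝓝[s] θ) (𝓝 r))
    (hS : ∀ φ, ∃ F : Filter ℝ, F.NeBot ∧ F ≤ 𝓝 φ ∧ Tendsto g F (𝓝 (S φ))) :
    Tendsto S (𝓝[s] θ) (𝓝 r) := by
  rw [Metric.tendsto_nhds]
  intro e he
  have h1 : ∀ᶠ ψ in 𝓝[s] θ, dist (g ψ) r ≤ e / 2 := by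
    filter_upwards [(Metric.tendsto_nhds.1 h) (e / 2) (by linarith)] with ψ hψ using hψ.le
  have h2 := eventually_eventually_nhdsWithin.2 h1
  filter_upwards [h2, self_mem_nhdsWithin] with φ hφ hφs
  rw [hs.nhdsWithin_eq hφs] at hφ
  obtain ⟨F, hF, hFle, hFt⟩ := hS φ
  have h3 : ∀ᶠ ψ in F, dist (g ψ) r ≤ e / 2 := hFle hφ
  have h4 : dist (S φ) r ≤ e / 2 :=
    le_of_tendsto (hFt.dist tendsto_const_nhds) h3
  linarith

/-- The one-sided limits of the fibres. -/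
theorem regulated_sided (hp : IsConvexPolygon p) (_hf : Measurable f) (_hb : ∀ x, ‖f x‖ ≤ 1)
    (h : RegulatedFibres p f) : ∃ P M : ℂ → ℝ → ℂ, Sided p f 1 P ∧ Sided p f (-1) M ∧
      ∀ᵐ z : ℂ, z ∈ reg p → ∀ θ : ℝ, Tendsto (P z) (𝓝[>] θ) (𝓝 (P z θ)) ∧
        Tendsto (M z) (𝓝[>] θ) (𝓝 (P z θ)) ∧ Tendsto (P z) (𝓝[<] θ) (𝓝 (M z θ)) ∧
        Tendsto (M z) (𝓝[<] θ) (𝓝 (M z θ)) := by
  classical
  have hG : ∀ z : ℂ, ∃ q : (ℝ → ℂ) × (ℝ → ℂ) × (ℝ → ℂ),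
      (∃ g : ℝ → ℂ, Regulated g ∧ ∀ᵐ θ : ℝ, f (z, θ) = g θ) →
      (∀ᵐ θ : ℝ, f (z, θ) = q.1 θ) ∧ (∀ θ, Tendsto q.1 (𝓝[>] θ) (𝓝 (q.2.1 θ))) ∧
        ∀ θ, Tendsto q.1 (𝓝[<] θ) (𝓝 (q.2.2 θ)) := by
    intro z
    by_cases hz : ∃ g : ℝ → ℂ, Regulated g ∧ ∀ᵐ θ : ℝ, f (z, θ) = g θ
    · obtain ⟨g, hg, hgae⟩ := hz
      choose l hl using fun θ => (hg θ).1
      choose r hr using fun θ => (hg θ).2
      exact ⟨(g, r, l), fun _ => ⟨hgae, hr, hl⟩⟩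
    · exact ⟨(0, 0, 0), fun h => absurd h hz⟩
  choose q hq using hG
  have hgood : ∀ᵐ z : ℂ, z ∈ reg p → (∀ᵐ θ : ℝ, f (z, θ) = (q z).1 θ) ∧
      (∀ θ, Tendsto (q z).1 (𝓝[>] θ) (𝓝 ((q z).2.1 θ))) ∧
        ∀ θ, Tendsto (q z).1 (𝓝[<] θ) (𝓝 ((q z).2.2 θ)) := by
    filter_upwards [h] with z hz hzr
    rw [hull hp] at hz
    exact hq z (hz hzr)
  refine ⟨fun z => (q z).2.1, fun z => (q z).2.2, ?_, ?_, ?_⟩
  · filter_upwards [hgood] with z hz hzr θ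
    obtain ⟨h1, h2, -⟩ := hz hzr
    exact side_avg h1 (Or.inl rfl) ((h2 θ).comp (tendsto_right θ))
  · filter_upwards [hgood] with z hz hzr θ
    obtain ⟨h1, -, h3⟩ := hz hzr
    exact side_avg h1 (Or.inr rfl) ((h3 θ).comp (tendsto_left θ))
  · filter_upwards [hgood] with z hz hzr θ
    obtain ⟨h1, h2, h3⟩ := hz hzr
    have hR : ∀ φ, ∃ F : Filter ℝ, F.NeBot ∧ F ≤ 𝓝 φ ∧ Tendsto (q z).1 F (𝓝 ((q z).2.1 φ)) :=
      fun φ => ⟨𝓝[>] φ, inferInstance, nhdsWithin_le_nhds, h2 φ⟩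
    have hL : ∀ φ, ∃ F : Filter ℝ, F.NeBot ∧ F ≤ 𝓝 φ ∧ Tendsto (q z).1 F (𝓝 ((q z).2.2 φ)) :=
      fun φ => ⟨𝓝[<] φ, inferInstance, nhdsWithin_le_nhds, h3 φ⟩
    exact ⟨lim_lim isOpen_Ioi (h2 θ) hR, lim_lim isOpen_Ioi (h2 θ) hL,
      lim_lim isOpen_Iio (h3 θ) hR, lim_lim isOpen_Iio (h3 θ) hL⟩

end Pool.Agent.Zk80.RF
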