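import Pool.Agent.Zk55.RF.Base2

set_option autoImplicit false

/-!
Fibres whose averages from the right converge to a constant (helper80, for helper55).
-/

namespace Pool.Agent.Zk80.RF

open Complex Set MeasureTheory Filter Topology Pool.Agent.W780.PG Pool.Agent.W780.BB
  Pool.Agent.TH578.BE Pool.Agent.K3h17.BK Pool.Agent.Zk55.CF Pool.Agent.Zk55.RF

open scoped Real ComplexConjugate

variable {n : ℕ} {p : Fin (n + 3) → ℂ} {f : ℂ × ℝ → ℂ}

/-- A nonnegative function whose right averages tend to zero everywhere is zero almost everywhere. -/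
theorem ae_zero_of_right {w : ℝ → ℝ} (hw : Measurable w) (h0 : ∀ x, 0 ≤ w x) {C : ℝ}
    (hC : ∀ x, w x ≤ C) (h : ∀ θ : ℝ, Tendsto (fun δ : ℝ => (1 / δ) *
      ∫ η in (0 : ℝ)..δ, w (θ + η)) (𝓝[>] 0) (𝓝 0)) : ∀ᵐ θ : ℝ, w θ = 0 := by
  have hint : ∀ a b : ℝ, IntervalIntegrable w volume a b := by
    intro a b
    rw [intervalIntegrable_iff]
    refine Integrable.mono' (g := fun _ => C) (integrableOn_const (by simp) (by simp)) ?_ ?_
    · exact hw.aestronglyMeasurable
    · refine Filter.Eventually.of_forall fun x => ?_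
      rw [Real.norm_eq_abs, abs_of_nonneg (h0 x)]
      exact hC x
  have key : ∀ a b : ℝ, a ≤ b → ∀ᵐ θ : ℝ, θ ∈ Ioc a b → w θ = 0 := by
    intro a b hab
    have hderiv : ∀ x ∈ Ico a b, HasDerivWithinAt (fun x => ∫ t in a..x, w t) 0 (Ici x) x := by
      intro x _
      rw [← hasDerivWithinAt_Ioi_iff_Ici, hasDerivWithinAt_iff_tendsto_slope' (by simp)]
      have h1 : Tendsto (fun y : ℝ => y - x) (𝓝[>] x) (𝓝[>] 0) := by
        rw [tendsto_nhdsWithin_iff]
        constructor
        · have : Continuous fun y : ℝ => y - x := by fun_prop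
          have h := this.tendsto x
          rw [sub_self] at h
          exact h.mono_left nhdsWithin_le_nhds
        · filter_upwards [self_mem_nhdsWithin] with y hy
          have hy' : x < y := hy
          show (0 : ℝ) < y - x
          linarith
      refine ((h x).comp h1).congr fun y => ?_
      simp only [Function.comp_apply]
      rw [slope_def_field, intervalIntegral.integral_interval_sub_left (hint _ _) (hint _ _),
        intervalIntegral.integral_comp_add_left, add_zero, add_sub_cancel]
      ring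
    have hcont : ContinuousOn (fun x => ∫ t in a..x, w t) (Icc a b) :=
      (intervalIntegral.continuous_primitive hint a).continuousOn
    have h2 := constant_of_has_deriv_right_zero hcont hderiv b ⟨hab, le_rfl⟩
    simp only [intervalIntegral.integral_same] at h2
    rw [intervalIntegral.integral_eq_zero_iff_of_le_of_nonneg_ae hab
      (Filter.Eventually.of_forall fun x => h0 x) (hint a b)] at h2
    have h3 := (ae_restrict_iff' measurableSet_Ioc).1 h2
    filter_upwards [h3] with θ hθ hmem
    exact hθ hmem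
  have h4 : ∀ᵐ θ : ℝ, ∀ N : ℕ, θ ∈ Ioc (-(N : ℝ)) N → w θ = 0 :=
    ae_all_iff.2 fun N => key _ _ (by
      have : (0 : ℝ) ≤ N := Nat.cast_nonneg N
      linarith)
  filter_upwards [h4] with θ hθ
  obtain ⟨N, hN⟩ := exists_nat_gt |θ|
  have h5 := abs_lt.1 hN
  exact hθ N ⟨h5.1, h5.2.le⟩

/-- If all limits from the right are equal to `c`, the function is constant. -/
theorem const_of_right (hp : IsConvexPolygon p) (hf : Measurable f) (hb : ∀ x, ‖f x‖ ≤ 1)
    {P : ℂ → ℝ → ℂ} (hP : Sided p f 1 P) {c : ℂ} (h : ∀ᵐ z : ℂ, z ∈ reg p → ∀ θ, P z θ = c) :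
    ∀ᵐ x : ℂ × ℝ, x ∈ phase p → f x = c := by
  have hfc : ∀ᵐ z : ℂ, z ∈ reg p → ∀ᵐ θ : ℝ, f (z, θ) = c := by
    filter_upwards [hP, h] with z h1 h2 hz
    have h3 := ae_zero_of_right (w := fun θ => ‖f (z, θ) - c‖)
      ((hf.comp (measurable_const.prodMk measurable_id)).sub measurable_const).norm
      (fun _ => norm_nonneg _) (C := 1 + ‖c‖) (fun x => by
        refine (norm_sub_le _ _).trans ?_
        have := hb (z, x)
        linarith) (fun θ => by
        have h4 := h1 hz θ
        rw [h2 hz θ] at h4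
        simp only [one_mul] at h4
        exact h4)
    filter_upwards [h3] with θ hθ
    exact sub_eq_zero.1 (norm_eq_zero.1 hθ)
  have hm : MeasurableSet {x : ℂ × ℝ | x.1 ∈ reg p ∧ f x ≠ c} := by
    refine MeasurableSet.inter ?_ ?_
    · exact measurable_fst (reg_op hp).measurableSet
    · exact (hf (measurableSet_singleton c)).compl
  have h0 : volume {x : ℂ × ℝ | x.1 ∈ reg p ∧ f x ≠ c} = 0 := by
    rw [Measure.volume_eq_prod, Measure.measure_prod_null hm]
    filter_upwards [hfc] with z h3
    refine measure_eq_zero_iff_ae_notMem.2 ?_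
    by_cases hz : z ∈ reg p
    · filter_upwards [h3 hz] with θ h5
      rintro ⟨-, h6⟩
      exact h6 h5
    · exact Filter.Eventually.of_forall fun θ h5 => hz h5.1
  filter_upwards [measure_eq_zero_iff_ae_notMem.1 h0] with x hx hxr
  by_contra hcon
  refine hx ⟨?_, hcon⟩
  have h6 : x.1 ∈ region p := hxr.1
  rwa [hull hp] at h6

end Pool.Agent.Zk80.RF
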