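import Pool.Agent.H984R4.NP.ModelLem
import Pool.Agent.H984R4.NP.PL

/-!
The Hausdorff distance of two exploration paths (helper80, for helper60).
-/

set_option autoImplicit false

namespace Pool.Agent.Zk80.Hd

open H974 Finset H342P H984P H984N

/-- The nodes of a piecewise linear curve are on the curve. -/
theorem pl_node {N : ℕ} (p : ℕ → ℂ) {k : ℕ} (hk : k ≤ N) : p k ∈ Set.range (pl N p) := by
  rcases Nat.eq_zero_or_pos k with rfl | hk0
  · exact ⟨0, pl_zero N p⟩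
  · obtain ⟨j, rfl⟩ : ∃ j, k = j + 1 := ⟨k - 1, by omega⟩
    have hN : (0 : ℝ) < N := by exact_mod_cast (lt_of_lt_of_le hk0 hk)
    have hjN : ((j : ℝ) + 1) ≤ N := by exact_mod_cast hk
    have hs : ((j : ℝ) + 1) / N ∈ unitInterval :=
      ⟨by positivity, by rw [div_le_one hN]; exact hjN⟩
    have e : ((⟨((j : ℝ) + 1) / N, hs⟩ : unitInterval) : ℝ) * N = j + 1 := by
      change ((j : ℝ) + 1) / N * N = j + 1
      field_simp
    refine ⟨⟨((j : ℝ) + 1) / N, hs⟩, ?_⟩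
    rw [pl_seg (k := j) (by omega) (by rw [e]; linarith) (by rw [e]), e]
    push_cast
    ring

theorem half (R : Rect) {δ : ℝ} (hδ : 0 < δ) (m : ℤ) (F F' : Finset Edg)
    (h : ∀ k ≤ (R.dm δ).len F, ∃ l ≤ (R.dm δ).len F',
      sd ((R.dm δ).walk F k).1 ((R.dm δ).walk F' l).1 ≤ m) :
    ∀ z ∈ Set.range (R.curve δ F), ∃ w ∈ Set.range (R.curve δ F'),
      dist z w ≤ 2 * δ * (m + 3) := by
  rintro z ⟨s, rfl⟩
  obtain ⟨k, hk, h1⟩ := pl_close (N := (R.dm δ).len F)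
    (p := fun k => pos δ ((R.dm δ).walk F k)) (δ := δ / 2) (by positivity) (fun k _ => by
      have e : (R.dm δ).walk F (k + 1) = nxt ((R.dm δ).cfg F) ((R.dm δ).walk F k) :=
        orb_succ _ _ _
      rw [e]
      exact pos_nxt hδ.le _ _) s
  obtain ⟨l, hl, h2⟩ := h k hk
  refine ⟨_, pl_node (fun k => pos δ ((R.dm δ).walk F' k)) hl, ?_⟩
  have h3 := dist_pos_le hδ.le ((R.dm δ).walk F k) ((R.dm δ).walk F' l)
  have h4 : ((sd ((R.dm δ).walk F k).1 ((R.dm δ).walk F' l).1 : ℤ) : ℝ) ≤ m := by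
    exact_mod_cast h2
  have h5 := dist_triangle (R.curve δ F s) (pos δ ((R.dm δ).walk F k))
    (pos δ ((R.dm δ).walk F' l))
  have h6 : dist (R.curve δ F s) (pos δ ((R.dm δ).walk F k)) ≤ δ / 2 := h1
  nlinarith

/-- If the paths are within lattice distance `m` of each other, the curves are close in the
Hausdorff distance. -/
theorem hd_of (R : Rect) : ∀ δ > 0, ∀ (m : ℤ), 1 ≤ m → ∀ F F' : Finset Edg,
    F ⊆ (R.dm δ).edges → F' ⊆ (R.dm δ).edges → (R.dm δ).Ok →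
    (∀ k ≤ (R.dm δ).len F, ∃ l ≤ (R.dm δ).len F',
      sd ((R.dm δ).walk F k).1 ((R.dm δ).walk F' l).1 ≤ m) →
    (∀ k ≤ (R.dm δ).len F', ∃ l ≤ (R.dm δ).len F,
      sd ((R.dm δ).walk F' k).1 ((R.dm δ).walk F l).1 ≤ m) →
    Metric.hausdorffDist (Set.range (R.curve δ F)) (Set.range (R.curve δ F')) ≤
      2 * δ * (m + 3) := by
  intro δ hδ m hm F F' _ _ _ h1 h2
  have hm' : (1 : ℝ) ≤ m := by exact_mod_cast hm
  have hδ' : (0 : ℝ) < δ := hδ
  exact Metric.hausdorffDist_le_of_mem_dist (by positivity) (half R hδ' m F F' h1)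
    (half R hδ' m F' F h2)

end Pool.Agent.Zk80.Hd
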