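import Pool.Agent.TH291.NW.Slab
import Pool.Agent.H973R2.Conn

/-!
Near-critical stability of connection events in finite sets of vertices whose boundary is on
a bounded number of lines (helper80).
-/

set_option autoImplicit false
set_option maxHeartbeats 1000000

namespace Pool.Agent.Zk80.VS

open H974 H12S H973N H973N.WHX Finset TH291.NW
open scoped Topology

/-- the index of a real number at mesh `δ` -/
noncomputable def ix (δ t : ℝ) : ℤ := ⌊t / δ + 1/2⌋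

/-- the domain of a set of vertices at mesh `δ` -/
def Dv (V : Finset Vtx) (δ : ℝ) : Set (ℝ × ℝ) := {z | (ix δ z.1, ix δ z.2) ∈ V}

/-- the lines `x = δ (c - 1/2)`, `c ∈ X`, and `y = δ (c - 1/2)`, `c ∈ Y`, in a square -/
def Bv (X Y : Finset ℤ) (R δ : ℝ) : Set (ℝ × ℝ) :=
  {z | (|z.1| ≤ R ∧ |z.2| ≤ R) ∧
    ((∃ c ∈ X, z.1 = δ * (c - 1/2)) ∨ ∃ c ∈ Y, z.2 = δ * (c - 1/2))}

theorem ix_pt {δ : ℝ} (hδ : 0 < δ) (m : ℤ) : ix δ (δ * m) = m := by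
  unfold ix
  rw [mul_div_cancel_left₀ _ hδ.ne', Int.floor_eq_iff]
  constructor <;> linarith

theorem ix_near {δ : ℝ} (hδ : 0 < δ) (t : ℝ) : |t - δ * ix δ t| ≤ δ / 2 := by
  unfold ix
  have h1 := Int.floor_le (t / δ + 1/2)
  have h2 := Int.lt_floor_add_one (t / δ + 1/2)
  obtain ⟨u, hu⟩ : ∃ u : ℝ, u = t / δ := ⟨_, rfl⟩
  have ht : t = δ * u := by rw [hu]; field_simp
  rw [← hu] at h1 h2 ⊢
  rw [ht, abs_le]
  constructor <;> nlinarith

/-- the index near `t`, off the lines of `X` -/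
theorem ix_nhds {δ : ℝ} (hδ : 0 < δ) {X : Finset ℤ} {t : ℝ} (ht : ∀ c ∈ X, t ≠ δ * (c - 1/2)) :
    ∀ᶠ t' in 𝓝 t, ix δ t' = ix δ t ∨ (ix δ t' = ix δ t - 1 ∧ ix δ t ∉ X) := by
  obtain ⟨i, hi⟩ : ∃ i : ℤ, i = ix δ t := ⟨_, rfl⟩
  rw [← hi]
  have h1 : (i : ℝ) ≤ t / δ + 1/2 := by rw [hi]; exact Int.floor_le _
  have h2 : t / δ + 1/2 < i + 1 := by rw [hi]; exact Int.lt_floor_add_one _
  have hcont : Continuous fun t' : ℝ => t' / δ + 1/2 := by fun_prop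
  have e2 : ∀ᶠ t' in 𝓝 t, t' / δ + 1/2 < i + 1 := (hcont.tendsto t).eventually_lt_const h2
  rcases eq_or_lt_of_le h1 with h | h
  · have hiX : i ∉ X := by
      intro hX
      apply ht i hX
      have : t / δ = i - 1/2 := by linarith
      rw [← this]
      field_simp
    have e1 : ∀ᶠ t' in 𝓝 t, (i : ℝ) - 1 < t' / δ + 1/2 :=
      (hcont.tendsto t).eventually_const_lt (by linarith)
    filter_upwards [e1, e2] with t' k1 k2
    unfold ix
    rcases le_or_gt (i : ℝ) (t' / δ + 1/2) with k | k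
    · left
      rw [Int.floor_eq_iff]
      exact ⟨k, k2⟩
    · right
      refine ⟨?_, hiX⟩
      rw [Int.floor_eq_iff]
      push_cast
      constructor <;> linarith
  · have e1 : ∀ᶠ t' in 𝓝 t, (i : ℝ) < t' / δ + 1/2 := (hcont.tendsto t).eventually_const_lt h
    filter_upwards [e1, e2] with t' k1 k2
    left
    unfold ix
    rw [Int.floor_eq_iff]
    exact ⟨k1.le, k2⟩

variable {V : Finset Vtx} {X Y : Finset ℤ} {δ R ρ0 A : ℝ}

theorem dv_bdd (hδ : 0 < δ) (hδ1 : δ ≤ 1) (hV : ∀ v ∈ V, |δ * v.1| ≤ ρ0 ∧ |δ * v.2| ≤ ρ0)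
    (hR : ρ0 + 1/2 ≤ R) : ∀ z ∈ Dv V δ, |z.1| ≤ R ∧ |z.2| ≤ R := by
  intro z hz
  have h := hV _ hz
  simp only at h
  have key : ∀ t : ℝ, |δ * ix δ t| ≤ ρ0 → |t| ≤ R := by
    intro t ht
    have h1 := ix_near hδ t
    have h2 : |t| ≤ |t - δ * ix δ t| + |δ * ix δ t| := by
      have := abs_add_le (t - δ * ix δ t) (δ * ix δ t)
      rwa [sub_add_cancel] at this
    linarith
  exact ⟨key _ h.1, key _ h.2⟩

theorem dv_frontier (hδ : 0 < δ) (hδ1 : δ ≤ 1) (hV : ∀ v ∈ V, |δ * v.1| ≤ ρ0 ∧ |δ * v.2| ≤ ρ0)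
    (hR : ρ0 + 1/2 ≤ R) (hX : ∀ x y : ℤ, x ∉ X → ((x - 1, y) ∈ V ↔ (x, y) ∈ V))
    (hY : ∀ x y : ℤ, y ∉ Y → ((x, y - 1) ∈ V ↔ (x, y) ∈ V)) :
    frontier (Dv V δ) ⊆ Bv X Y R δ := by
  intro z hz
  have hcl : z ∈ {z : ℝ × ℝ | |z.1| ≤ R ∧ |z.2| ≤ R} := by
    have hclosed : IsClosed {z : ℝ × ℝ | |z.1| ≤ R ∧ |z.2| ≤ R} :=
      (isClosed_le (continuous_abs.comp continuous_fst) continuous_const).inter
        (isClosed_le (continuous_abs.comp continuous_snd) continuous_const)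
    exact closure_minimal (dv_bdd hδ hδ1 hV hR) hclosed hz.1
  refine ⟨hcl, ?_⟩
  by_contra hcon
  push Not at hcon
  obtain ⟨h1, h2⟩ := hcon
  have e1 := ix_nhds hδ h1
  have e2 := ix_nhds hδ h2
  have e3 : ∀ᶠ z' in 𝓝 z, (z' ∈ Dv V δ ↔ z ∈ Dv V δ) := by
    have f1 := (continuous_fst.tendsto z).eventually e1
    have f2 := (continuous_snd.tendsto z).eventually e2
    filter_upwards [f1, f2] with z' k1 k2
    unfold Dv
    rw [Set.mem_ofPred_eq, Set.mem_ofPred_eq]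
    have g1 : (ix δ z'.1, ix δ z'.2) ∈ V ↔ (ix δ z.1, ix δ z'.2) ∈ V := by
      rcases k1 with k | ⟨k, k'⟩
      · rw [k]
      · rw [k]
        exact hX _ _ k'
    have g2 : (ix δ z.1, ix δ z'.2) ∈ V ↔ (ix δ z.1, ix δ z.2) ∈ V := by
      rcases k2 with k | ⟨k, k'⟩
      · rw [k]
      · rw [k]
        exact hY _ _ k'
    exact g1.trans g2
  by_cases hzD : z ∈ Dv V δ
  · apply hz.2
    rw [mem_interior_iff_mem_nhds]
    filter_upwards [e3] with z' hz'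
    exact hz'.2 hzD
  · have hc : z ∈ closure (Dv V δ) := hz.1
    rw [mem_closure_iff_frequently] at hc
    apply hc
    filter_upwards [e3] with z' hz' hz''
    exact hzD (hz'.1 hz'')

theorem cov_biUnion {ι : Type*} (s : Finset ι) (B : ι → Set (ℝ × ℝ)) (M : ℝ)
    (h : ∀ i ∈ s, Cov (B i) M 1) : Cov (⋃ i ∈ s, B i) (s.card * M) 1 := by
  classical
  induction s using Finset.induction_on with
  | empty =>
    intro r hr hr1
    refine ⟨∅, by simp, ?_⟩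
    intro x hx
    simp at hx
  | insert a s ha ih =>
    have h1 := (h a (Finset.mem_insert_self a s)).union
      (ih fun i hi => h i (Finset.mem_insert_of_mem hi))
    refine h1.mono ?_ ?_
    · rw [Finset.set_biUnion_insert]
    · rw [Finset.card_insert_of_notMem ha]
      push_cast
      linarith

theorem cov_Bv (k : ℕ) (hXk : X.card ≤ k) (hYk : Y.card ≤ k) (hR : 0 ≤ R) :
    Cov (Bv X Y R δ) (2 * k * (2 * R + 1)) 1 := by
  have lv : ∀ c : ℝ, ∀ s t : ℝ, dist (((c, s) : ℝ × ℝ)) (c, t) ≤ |s - t| := by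
    intro c s t
    rw [Prod.dist_eq, max_le_iff, Real.dist_eq, Real.dist_eq]
    simp only [sub_self, abs_zero]
    exact ⟨abs_nonneg _, le_rfl⟩
  have lh : ∀ c : ℝ, ∀ s t : ℝ, dist (((s, c) : ℝ × ℝ)) (t, c) ≤ |s - t| := by
    intro c s t
    rw [Prod.dist_eq, max_le_iff, Real.dist_eq, Real.dist_eq]
    simp only [sub_self, abs_zero]
    exact ⟨le_rfl, abs_nonneg _⟩
  have s1 : ∀ c ∈ X, Cov ((fun t => (((δ * ((c : ℝ) - 1/2)), t) : ℝ × ℝ)) '' Set.Icc (-R) R)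
      (2 * R + 1) 1 := fun c _ => cov_param (lv _) (by linarith) (by linarith)
  have s2 : ∀ c ∈ Y, Cov ((fun t => ((t, (δ * ((c : ℝ) - 1/2))) : ℝ × ℝ)) '' Set.Icc (-R) R)
      (2 * R + 1) 1 := fun c _ => cov_param (lh _) (by linarith) (by linarith)
  have hall := (cov_biUnion X _ _ s1).union (cov_biUnion Y _ _ s2)
  refine hall.mono ?_ ?_
  · rintro z ⟨⟨hz1, hz2⟩, ⟨c, hc, h⟩ | ⟨c, hc, h⟩⟩
    · left
      simp only [Set.mem_iUnion]
      exact ⟨c, hc, z.2, abs_le.1 hz2, Prod.ext h.symm rfl⟩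
    · right
      simp only [Set.mem_iUnion]
      exact ⟨c, hc, z.1, abs_le.1 hz1, Prod.ext rfl h.symm⟩
  · have h1 : (X.card : ℝ) ≤ k := by exact_mod_cast hXk
    have h2 : (Y.card : ℝ) ≤ k := by exact_mod_cast hYk
    nlinarith

theorem seg_Dv (hδ : 0 < δ) (e : Edg) :
    segment ℝ (pt δ (src e)) (pt δ (tgt e)) ⊆ Dv V δ ↔ src e ∈ V ∧ tgt e ∈ V := by
  have hin : ∀ v : ℤ × ℤ, pt δ v ∈ Dv V δ ↔ v ∈ V := by
    intro v
    unfold Dv pt
    rw [Set.mem_ofPred_eq]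
    simp only
    rw [ix_pt hδ, ix_pt hδ]
  constructor
  · intro g
    exact ⟨(hin _).1 (g (left_mem_segment ℝ _ _)), (hin _).1 (g (right_mem_segment ℝ _ _))⟩
  · rintro ⟨g1, g2⟩
    rw [seg_iff]
    intro θ h0 h1
    have key : ∀ m : ℤ, ix δ ((1 - θ) * (δ * m) + θ * (δ * m)) = m := by
      intro m
      have : (1 - θ) * (δ * (m : ℝ)) + θ * (δ * m) = δ * m := by ring
      rw [this, ix_pt hδ]
    have key2 : ∀ m : ℤ, ix δ ((1 - θ) * (δ * m) + θ * (δ * ((m + 1 : ℤ) : ℝ))) = m ∨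
        ix δ ((1 - θ) * (δ * m) + θ * (δ * ((m + 1 : ℤ) : ℝ))) = m + 1 := by
      intro m
      have : (1 - θ) * (δ * (m : ℝ)) + θ * (δ * ((m + 1 : ℤ) : ℝ)) = δ * (m + θ) := by
        push_cast; ring
      rw [this]
      unfold ix
      rw [mul_div_cancel_left₀ _ hδ.ne']
      rcases lt_or_ge θ (1/2) with h | h
      · left
        rw [Int.floor_eq_iff]
        constructor <;> linarith
      · right
        rw [Int.floor_eq_iff]
        push_cast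
        constructor <;> linarith
    unfold Dv pt
    rw [Set.mem_ofPred_eq]
    simp only
    obtain ⟨x, y, _ | _⟩ := e
    · rw [src_mk] at g1 ⊢
      rw [tgt_false] at g2 ⊢
      simp only
      rw [key]
      rcases key2 y with k | k
      · rw [k]; exact g1
      · rw [k]; exact g2
    · rw [src_mk] at g1 ⊢
      rw [tgt_true] at g2 ⊢
      simp only
      rw [key]
      rcases key2 x with k | k
      · rw [k]; exact g1
      · rw [k]; exact g2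

theorem mem_SE_of_seg' {D : Set (ℝ × ℝ)} {δ : ℝ} (hδ : 0 < δ) {N : ℕ}
    (hN : ∀ x ∈ D, |x.1| ≤ δ * N - δ ∧ |x.2| ≤ δ * N - δ) {e : Edg}
    (hin : segment ℝ (pt δ (src e)) (pt δ (tgt e)) ⊆ D) : e ∈ SE D δ N := by
  rw [mem_SE]
  refine ⟨?_, hin⟩
  have e1 := hN _ (hin (left_mem_segment ℝ _ _))
  have e2 := hN _ (hin (right_mem_segment ℝ _ _))
  have key : ∀ z : ℤ, |δ * (z:ℝ)| ≤ δ * N - δ → |z| ≤ (N:ℤ) - 1 := by
    intro z hz
    rw [abs_mul, abs_of_pos hδ, ← mul_sub_one] at hz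
    have := le_of_mul_le_mul_left hz hδ
    have h3 : ((|z| : ℤ) : ℝ) ≤ ((N : ℤ) - 1 : ℤ) := by push_cast; exact this
    exact_mod_cast h3
  have a1 := key _ e1.1
  have a2 := key _ e1.2
  have a3 := key _ e2.1
  have a4 := key _ e2.2
  obtain ⟨x, y, _ | _⟩ := e
  · rw [mem_RE_false]
    simp only [src, tgt_false, abs_le] at a1 a2 a3 a4
    omega
  · rw [mem_RE_true]
    simp only [src, tgt_true, abs_le] at a1 a2 a3 a4
    omega

/-- **Near-critical stability of the connection events of a finite set of vertices** whose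
boundary is on at most `2 k` lines parallel to the axes. -/
theorem vs_stab (ρ0 A : ℝ) (k : ℕ) (hA : 0 ≤ A) : ∃ C : ℝ, 0 < C ∧ ∀ δ : ℝ, 0 < δ → δ ≤ 1 →
    ∀ (V : Finset Vtx) (X Y : Finset ℤ), X.card ≤ k → Y.card ≤ k →
    (∀ v ∈ V, |δ * v.1| ≤ ρ0 ∧ |δ * v.2| ≤ ρ0) →
    (∀ x y : ℤ, x ∉ X → ((x - 1, y) ∈ V ↔ (x, y) ∈ V)) →
    (∀ x y : ℤ, y ∉ Y → ((x, y - 1) ∈ V ↔ (x, y) ∈ V)) →
    ∀ I J : Set Vtx, (∀ v ∈ I ∪ J, v ∈ V ∧
      ((∃ x ∈ X, |((v.1 - x : ℤ) : ℝ)| ≤ A) ∨ ∃ y ∈ Y, |((v.2 - y : ℤ) : ℝ)| ≤ A)) →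
    ∀ q : ℝ, 0 ≤ q → q ≤ 1 →
      |Pr (fun _ => q) (H973.ES V) (fun F => Cn I J ↑F) -
        Pr (fun _ => 1/2) (H973.ES V) (fun F => Cn I J ↑F)| ≤
        C * |q - 1/2| * δ ^ (-(3/4 : ℝ)) := by
  obtain ⟨R, hR⟩ : ∃ R : ℝ, R = |ρ0| + A + 1 := ⟨_, rfl⟩
  have hρ := le_abs_self ρ0
  have hρ' := abs_nonneg ρ0
  have hR0 : 0 ≤ R := by rw [hR]; linarith
  obtain ⟨C, hC, hst⟩ := dom_stab stU R (2 * k * (2 * R + 1)) 1 (A + 1) (by positivity)
    (by norm_num) (by norm_num) (by linarith)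
  refine ⟨C, hC, ?_⟩
  intro δ hδ hδ1 V X Y hXk hYk hV hX hY I J hIJ q h0 h1
  obtain ⟨N, hN⟩ := exists_nat_ge ((R + δ) / δ)
  rw [div_le_iff₀ hδ] at hN
  have hb : ∀ z ∈ Dv V δ, |z.1| ≤ R ∧ |z.2| ≤ R :=
    dv_bdd hδ hδ1 hV (by rw [hR]; linarith)
  have hSE : SE (Dv V δ) δ N = H973.ES V := by
    ext e
    rw [H973.mem_ES, ← seg_Dv (V := V) hδ e]
    constructor
    · intro h
      exact (mem_SE.mp h).2
    · intro h
      exact mem_SE_of_seg' hδ (fun x hx => ⟨(hb x hx).1.trans (by linarith),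
        (hb x hx).2.trans (by linarith)⟩) h
  rw [← hSE]
  refine hst (Dv V δ) (Bv X Y R δ) (dv_frontier hδ hδ1 hV (by rw [hR]; linarith) hX hY) hb
    (cov_Bv k hXk hYk hR0) δ hδ hδ1 N (by linarith) I J ?_ q h0 h1
  intro v hv
  obtain ⟨hvV, hv'⟩ := hIJ v hv
  obtain ⟨b1, b2⟩ := hV v hvV
  have key : ∀ m c : ℤ, |δ * (m:ℝ)| ≤ ρ0 → |((m - c : ℤ) : ℝ)| ≤ A →
      |δ * ((c:ℝ) - 1/2) - δ * m| ≤ (A + 1) * δ ∧ |δ * ((c:ℝ) - 1/2)| ≤ R := by
    intro m c hm hc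
    push_cast at hc
    have e1 : δ * ((c:ℝ) - 1/2) - δ * m = -(δ * (m - c + 1/2)) := by ring
    have e2 : |δ * ((c:ℝ) - 1/2) - δ * m| ≤ δ * (A + 1/2) := by
      rw [e1, abs_neg, abs_mul, abs_of_pos hδ]
      refine mul_le_mul_of_nonneg_left ?_ hδ.le
      refine (abs_add_le _ _).trans ?_
      rw [abs_of_pos (by norm_num : (0:ℝ) < 1/2)]
      linarith
    refine ⟨e2.trans (by nlinarith), ?_⟩
    have e3 : |δ * ((c:ℝ) - 1/2)| ≤ |δ * ((c:ℝ) - 1/2) - δ * m| + |δ * (m:ℝ)| := by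
      have := abs_add_le (δ * ((c:ℝ) - 1/2) - δ * m) (δ * (m:ℝ))
      rwa [sub_add_cancel] at this
    rw [hR]
    nlinarith
  rcases hv' with ⟨c, hc, h⟩ | ⟨c, hc, h⟩
  · obtain ⟨k1, k2⟩ := key v.1 c b1 h
    refine ⟨(δ * ((c:ℝ) - 1/2), δ * v.2), ⟨⟨k2, b2.trans (by rw [hR]; linarith)⟩,
      Or.inl ⟨c, hc, rfl⟩⟩, ?_⟩
    rw [dist_pt]
    refine ⟨k1, ?_⟩
    simp only [sub_self, abs_zero]
    positivity
  · obtain ⟨k1, k2⟩ := key v.2 c b2 h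
    refine ⟨(δ * v.1, δ * ((c:ℝ) - 1/2)), ⟨⟨b1.trans (by rw [hR]; linarith), k2⟩,
      Or.inr ⟨c, hc, rfl⟩⟩, ?_⟩
    rw [dist_pt]
    refine ⟨?_, k1⟩
    simp only [sub_self, abs_zero]
    positivity

end Pool.Agent.Zk80.VS
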