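import Mathlib
import Pool.Agent.Zk39.MC.Def

/-!
# The system of lines of a cocycle of injective linear maps (helper80)

For a continuous map `S` of a compact space `Y` and a continuous family `g y` of injective linear maps of
`K^n`, the product of `Y` with the space of lines of `K^n`, with the map `(y, ℓ) ↦ (S y, g y ℓ)`.
-/

set_option autoImplicit false

open Filter Topology

namespace Pool.Agent.Zk80.LS

open Pool.Agent.Zk39.MC

section

variable {K : Type} [NontriviallyNormedField K] {n : ℕ}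

/-- the ratio `|a v| / |v|` -/
noncomputable def rat (v : Fin n → K) (a : (Fin n → K) →ₗ[K] K) : ℝ := ‖a v‖ / ‖v‖

theorem rat_smul (c : K) (hc : c ≠ 0) (v : Fin n → K) : rat (c • v) = rat v := by
  funext a
  unfold rat
  rw [map_smul, norm_smul, norm_smul]
  exact mul_div_mul_left _ _ (norm_ne_zero_iff.2 hc)

theorem exists_smul_of_rat_eq {v w : Fin n → K} (hw : w ≠ 0) (h : rat v = rat w) :
    ∃ c : K, c ≠ 0 ∧ w = c • v := by
  by_contra hcon
  have hnot : w ∉ Submodule.span K {v} := by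
    intro hmem
    obtain ⟨c, hc⟩ := Submodule.mem_span_singleton.1 hmem
    refine hcon ⟨c, ?_, hc.symm⟩
    rintro rfl
    rw [zero_smul] at hc
    exact hw hc.symm
  obtain ⟨a, ha, ha'⟩ := Submodule.exists_le_ker_of_notMem hnot
  have h1 : a v = 0 := ha' (Submodule.mem_span_singleton_self v)
  have h2 := congrFun h a
  unfold rat at h2
  rw [h1, norm_zero, zero_div] at h2
  have h3 : ‖a w‖ / ‖w‖ ≠ 0 := div_ne_zero (norm_ne_zero_iff.2 ha) (norm_ne_zero_iff.2 hw)
  exact h3 h2.symm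

/-- a closed annulus -/
def Ann (K : Type) [NontriviallyNormedField K] (n : ℕ) (R : ℝ) : Set (Fin n → K) :=
  {v | 1 ≤ ‖v‖ ∧ ‖v‖ ≤ R}

theorem isCompact_ann [ProperSpace K] (R : ℝ) : IsCompact (Ann K n R) := by
  have h1 : Ann K n R = Metric.closedBall (0 : Fin n → K) R ∩ {v | 1 ≤ ‖v‖} := by
    ext v
    simp only [Ann, Set.mem_ofPred_eq, Set.mem_inter_iff, Metric.mem_closedBall, dist_zero_right]
    tauto
  rw [h1]
  exact (isCompact_closedBall _ _).inter_right (isClosed_le continuous_const continuous_norm)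

theorem ne_zero_of_mem_ann {R : ℝ} {v : Fin n → K} (hv : v ∈ Ann K n R) : v ≠ 0 := by
  rintro rfl
  have := hv.1
  rw [norm_zero] at this
  linarith

theorem exists_smul_mem_ann {c : K} (hc : 1 < ‖c‖) {v : Fin n → K} (hv : v ≠ 0) :
    ∃ d : K, d ≠ 0 ∧ d • v ∈ Ann K n ‖c‖ := by
  obtain ⟨d, hd, h1, h2, -⟩ := rescale_to_shell hc (ε := ‖c‖) (by linarith) hv
  refine ⟨d, hd, ?_, h1.le⟩
  rwa [div_self (by linarith : ‖c‖ ≠ 0)] at h2

/-- the space of the ratios of the vectors of an annulus -/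
abbrev Qs (K : Type) [NontriviallyNormedField K] (n : ℕ) (R : ℝ) : Type :=
  Set.range (fun v : Ann K n R => rat v.1)

theorem rat_mem {c : K} (hc : 1 < ‖c‖) {v : Fin n → K} (hv : v ≠ 0) :
    rat v ∈ Set.range (fun v : Ann K n ‖c‖ => rat v.1) := by
  obtain ⟨d, hd, h⟩ := exists_smul_mem_ann hc hv
  exact ⟨⟨d • v, h⟩, rat_smul d hd v⟩

/-- the class of a nonzero vector -/
noncomputable def cls {c : K} (hc : 1 < ‖c‖) (v : {v : Fin n → K // v ≠ 0}) : Qs K n ‖c‖ :=
  ⟨rat v.1, rat_mem hc v.2⟩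

/-- a vector of the annulus with the given ratios -/
noncomputable def sec {R : ℝ} (N : Qs K n R) : Ann K n R := N.2.choose

theorem rat_sec {R : ℝ} (N : Qs K n R) : rat (sec N).1 = N.1 := N.2.choose_spec

theorem sec_ne_zero {R : ℝ} (N : Qs K n R) : (sec N).1 ≠ 0 := ne_zero_of_mem_ann (sec N).2

theorem continuous_rat {A : Type*} [TopologicalSpace A] (f : A → Fin n → K) (hf : Continuous f)
    (h0 : ∀ x, f x ≠ 0) (a : (Fin n → K) →ₗ[K] K) : Continuous fun x => rat (f x) a := by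
  unfold rat
  exact ((LinearMap.continuous_on_pi a).comp hf).norm.div hf.norm (fun x => norm_ne_zero_iff.2 (h0 x))

theorem continuous_cls {c : K} (hc : 1 < ‖c‖) {A : Type*} [TopologicalSpace A]
    (f : A → {v : Fin n → K // v ≠ 0}) (hf : Continuous fun x => (f x).1) :
    Continuous fun x => cls hc (f x) := by
  refine Continuous.subtype_mk (continuous_pi fun a => ?_) _
  exact continuous_rat (fun x => (f x).1) hf (fun x => (f x).2) a

theorem compactSpace_Qs [ProperSpace K] (R : ℝ) : CompactSpace (Qs K n R) := by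
  have : CompactSpace (Ann K n R) := isCompact_iff_compactSpace.1 (isCompact_ann R)
  refine isCompact_iff_compactSpace.1 (isCompact_range ?_)
  refine continuous_pi fun a => ?_
  exact continuous_rat (fun v : Ann K n R => v.1) continuous_subtype_val
    (fun v => ne_zero_of_mem_ann v.2) a

variable {Y : Type}

/-- the map of the system of lines -/
noncomputable def Tmap {c : K} (hc : 1 < ‖c‖) (S : Y → Y) (g : Y → (Fin n → K) →L[K] (Fin n → K))
    (hinj : ∀ y, Function.Injective (g y)) (x : Y × Qs K n ‖c‖) : Y × Qs K n ‖c‖ :=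
  (S x.1, cls hc ⟨g x.1 (sec x.2).1, fun h => sec_ne_zero x.2 (hinj x.1 (h.trans (map_zero _).symm))⟩)

theorem cls_smul {c : K} (hc : 1 < ‖c‖) (v w : {v : Fin n → K // v ≠ 0}) (d : K) (hd : d ≠ 0)
    (h : w.1 = d • v.1) : cls hc w = cls hc v := by
  apply Subtype.ext
  change rat w.1 = rat v.1
  rw [h, rat_smul d hd]

theorem Tmap_cls {c : K} (hc : 1 < ‖c‖) (S : Y → Y) (g : Y → (Fin n → K) →L[K] (Fin n → K))
    (hinj : ∀ y, Function.Injective (g y)) (y : Y) (v w : {v : Fin n → K // v ≠ 0})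
    (hw : w.1 = g y v.1) : Tmap hc S g hinj (y, cls hc v) = (S y, cls hc w) := by
  obtain ⟨d, hd, h⟩ := exists_smul_of_rat_eq (sec_ne_zero (cls hc v))
    (show rat v.1 = _ from (rat_sec (cls hc v)).symm)
  unfold Tmap
  refine Prod.ext rfl ?_
  refine cls_smul hc w _ d hd ?_
  change g y (sec (cls hc v)).1 = d • w.1
  rw [h, map_smul, hw]

theorem continuous_Tmap [TopologicalSpace Y] [CompactSpace Y] [T2Space Y] [ProperSpace K] {c : K}
    (hc : 1 < ‖c‖) (S : Y → Y) (hS : Continuous S)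
    (g : Y → (Fin n → K) →L[K] (Fin n → K)) (hg : Continuous g)
    (hinj : ∀ y, Function.Injective (g y)) : Continuous (Tmap hc S g hinj) := by
  have : CompactSpace (Ann K n ‖c‖) := isCompact_iff_compactSpace.1 (isCompact_ann _)
  let r : Y × Ann K n ‖c‖ → Y × Qs K n ‖c‖ := fun z => (z.1, cls hc ⟨z.2.1, ne_zero_of_mem_ann z.2.2⟩)
  have hr : Continuous r := by
    refine continuous_fst.prodMk ?_
    have hv : Continuous fun z : Y × Ann K n ‖c‖ => z.2.1 := continuous_subtype_val.comp continuous_snd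
    exact continuous_cls hc (fun z : Y × Ann K n ‖c‖ => ⟨z.2.1, ne_zero_of_mem_ann z.2.2⟩) hv
  have hsurj : Function.Surjective r := by
    rintro ⟨y, N⟩
    refine ⟨(y, sec N), Prod.ext rfl (Subtype.ext ?_)⟩
    exact rat_sec N
  have hq : IsQuotientMap r := (hr.isClosedMap).isQuotientMap hr hsurj
  rw [hq.continuous_iff]
  have hne : ∀ z : Y × Ann K n ‖c‖, g z.1 z.2.1 ≠ 0 := fun z h =>
    ne_zero_of_mem_ann z.2.2 (hinj z.1 (h.trans (map_zero _).symm))
  have h1 : (Tmap hc S g hinj) ∘ r = fun z => (S z.1, cls hc ⟨g z.1 z.2.1, hne z⟩) := by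
    funext z
    exact Tmap_cls hc S g hinj z.1 ⟨z.2.1, ne_zero_of_mem_ann z.2.2⟩ ⟨g z.1 z.2.1, hne z⟩ rfl
  rw [h1]
  refine (hS.comp continuous_fst).prodMk ?_
  exact continuous_cls hc (fun z : Y × Ann K n ‖c‖ => ⟨g z.1 z.2.1, hne z⟩)
    ((hg.comp continuous_fst).clm_apply (continuous_subtype_val.comp continuous_snd))

/-- The system of lines of a continuous family of injective linear maps of `K^n` over a compact system. The map `q y`
takes a nonzero vector to its line in the fibre over `y`. -/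
theorem line_system [TopologicalSpace Y] [CompactSpace Y] [T2Space Y] [ProperSpace K]
    (S : Y → Y) (hS : Continuous S) (g : Y → (Fin n → K) →L[K] (Fin n → K)) (hg : Continuous g)
    (hinj : ∀ y, Function.Injective (g y)) :
    ∃ (X : Type) (_ : TopologicalSpace X) (_ : CompactSpace X) (_ : T2Space X) (T : X → X) (π : X → Y)
      (Φ : X → Fin n → K) (q : Y → {v : Fin n → K // v ≠ 0} → X),
      Continuous T ∧ Continuous π ∧ (∀ x, π (T x) = S (π x)) ∧ LineAction T π Φ ∧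
      (∀ x, ∃ c : K, c ≠ 0 ∧ Φ (T x) = c • g (π x) (Φ x)) ∧
      (∀ x x', π x = π x' →
        (∀ a : (Fin n → K) →ₗ[K] K, ‖a (Φ x)‖ / ‖Φ x‖ = ‖a (Φ x')‖ / ‖Φ x'‖) → x = x') ∧
      ∀ y v, π (q y v) = y ∧ (∀ w : {v : Fin n → K // v ≠ 0}, w.1 = g y v.1 → T (q y v) = q (S y) w) ∧
        ∃ c : K, c ≠ 0 ∧ Φ (q y v) = c • v.1 := by
  obtain ⟨c, hc⟩ := NormedField.exists_one_lt_norm K
  have : CompactSpace (Qs K n ‖c‖) := compactSpace_Qs _
  have hT : ∀ x : Y × Qs K n ‖c‖, ∃ d : K, d ≠ 0 ∧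
      (sec (Tmap hc S g hinj x).2).1 = d • g x.1 (sec x.2).1 := by
    intro x
    exact exists_smul_of_rat_eq (v := g x.1 (sec x.2).1) (sec_ne_zero _)
      (show rat (g x.1 (sec x.2).1) = _ from (rat_sec (Tmap hc S g hinj x).2).symm)
  refine ⟨Y × Qs K n ‖c‖, inferInstance, inferInstance, inferInstance, Tmap hc S g hinj, Prod.fst,
    fun x => (sec x.2).1, fun y v => (y, cls hc v), continuous_Tmap hc S hS g hg hinj, continuous_fst,
    fun x => rfl, ⟨?_, fun x => sec_ne_zero x.2, ?_⟩, hT, ?_, ?_⟩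
  · intro a
    have h1 : (fun x : Y × Qs K n ‖c‖ => ‖a (sec x.2).1‖ / ‖(sec x.2).1‖) = fun x => x.2.1 a := by
      funext x
      exact congrFun (rat_sec x.2) a
    rw [h1]
    exact (continuous_apply a).comp (continuous_subtype_val.comp continuous_snd)
  · intro y
    refine ⟨(g y : (Fin n → K) →ₗ[K] (Fin n → K)), ?_⟩
    intro x hx
    subst hx
    exact hT x
  · rintro ⟨y, N⟩ ⟨y', N'⟩ hy h
    refine Prod.ext hy (Subtype.ext ?_)
    rw [← rat_sec N, ← rat_sec N']
    funext a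
    exact h a
  · intro y v
    refine ⟨rfl, fun w hw => Tmap_cls hc S g hinj y v w hw, ?_⟩
    exact exists_smul_of_rat_eq (v := v.1) (sec_ne_zero _)
      (show rat v.1 = _ from (rat_sec (cls hc v)).symm)

/-- The same with a total function `q`, for `n ≠ 0`. -/
theorem line_system' [TopologicalSpace Y] [CompactSpace Y] [T2Space Y] [ProperSpace K] (hn : n ≠ 0)
    (S : Y → Y) (hS : Continuous S) (g : Y → (Fin n → K) →L[K] (Fin n → K)) (hg : Continuous g)
    (hinj : ∀ y, Function.Injective (g y)) :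
    ∃ (X : Type) (_ : TopologicalSpace X) (_ : CompactSpace X) (_ : T2Space X) (T : X → X) (π : X → Y)
      (Φ : X → Fin n → K) (q : Y → (Fin n → K) → X),
      Continuous T ∧ Continuous π ∧ (∀ x, π (T x) = S (π x)) ∧ LineAction T π Φ ∧
      (∀ x, ∃ c : K, c ≠ 0 ∧ Φ (T x) = c • g (π x) (Φ x)) ∧
      (∀ x x', π x = π x' →
        (∀ a : (Fin n → K) →ₗ[K] K, ‖a (Φ x)‖ / ‖Φ x‖ = ‖a (Φ x')‖ / ‖Φ x'‖) → x = x') ∧
      ∀ y v, v ≠ 0 → π (q y v) = y ∧ T (q y v) = q (S y) (g y v) ∧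
        ∃ c : K, c ≠ 0 ∧ Φ (q y v) = c • v := by
  obtain ⟨X, t1, t2, t3, T, π, Φ, q, h1, h2, h3, h4, h5, h6, h7⟩ := line_system S hS g hg hinj
  have hex : ∃ v : Fin n → K, v ≠ 0 := by
    refine ⟨fun _ => 1, fun h => ?_⟩
    have := congrFun h ⟨0, Nat.pos_of_ne_zero hn⟩
    exact one_ne_zero this
  obtain ⟨v₀, hv₀⟩ := hex
  classical
  refine ⟨X, t1, t2, t3, T, π, Φ, fun y v => if h : v ≠ 0 then q y ⟨v, h⟩ else q y ⟨v₀, hv₀⟩,
    h1, h2, h3, h4, h5, h6, ?_⟩
  intro y v hv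
  have hgv : g y v ≠ 0 := fun h => hv (hinj y (h.trans (map_zero _).symm))
  obtain ⟨e1, e2, e3⟩ := h7 y ⟨v, hv⟩
  beta_reduce
  rw [dif_pos hv, dif_pos hgv]
  exact ⟨e1, e2 ⟨g y v, hgv⟩ rfl, e3⟩

theorem continuous_ratio_const {X : Type} [TopologicalSpace X] (Φ : X → Fin n → K)
    (hΦ : ∀ a : (Fin n → K) →ₗ[K] K, Continuous fun x => ‖a (Φ x)‖ / ‖Φ x‖)
    (G : (Fin n → K) →ₗ[K] (Fin n → K)) : Continuous fun x => ‖G (Φ x)‖ / ‖Φ x‖ := by
  have h1 : (fun x => ‖G (Φ x)‖ / ‖Φ x‖) =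
      fun x => ‖(fun j : Fin n => ‖(LinearMap.proj j ∘ₗ G) (Φ x)‖ / ‖Φ x‖ : Fin n → ℝ)‖ := by
    funext x
    apply le_antisymm
    · rcases eq_or_ne (‖Φ x‖) 0 with h0 | h0
      · rw [h0, div_zero]
        exact norm_nonneg _
      · have hpos : 0 < ‖Φ x‖ := lt_of_le_of_ne (norm_nonneg _) (Ne.symm h0)
        rw [div_le_iff₀ hpos]
        refine (pi_norm_le_iff_of_nonneg (by positivity)).2 fun j => ?_
        rw [← div_le_iff₀ hpos]
        refine le_trans (le_of_eq ?_) (norm_le_pi_norm _ j)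
        rw [Real.norm_eq_abs, abs_of_nonneg (by positivity)]
        rfl
    · refine (pi_norm_le_iff_of_nonneg (by positivity)).2 fun j => ?_
      rw [Real.norm_eq_abs, abs_of_nonneg (by positivity)]
      gcongr
      exact norm_le_pi_norm (G (Φ x)) j
  rw [h1]
  exact (continuous_pi fun j => hΦ (LinearMap.proj j ∘ₗ G)).norm

/-- The growth of the vector `Φ x` under a linear map which depends continuously on the point of the base is a
continuous function. -/
theorem continuous_ratio {X : Type} [TopologicalSpace X] [TopologicalSpace Y] (π : X → Y)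
    (hπ : Continuous π) (Φ : X → Fin n → K)
    (hΦ : ∀ a : (Fin n → K) →ₗ[K] K, Continuous fun x => ‖a (Φ x)‖ / ‖Φ x‖)
    (g : Y → (Fin n → K) →L[K] (Fin n → K)) (hg : Continuous g) :
    Continuous fun x => ‖g (π x) (Φ x)‖ / ‖Φ x‖ := by
  rw [continuous_iff_continuousAt]
  intro x₀
  have h1 : Continuous fun x => ‖g (π x₀) (Φ x)‖ / ‖Φ x‖ :=
    continuous_ratio_const Φ hΦ (g (π x₀) : (Fin n → K) →ₗ[K] (Fin n → K))
  have h2 : Tendsto (fun x => ‖g (π x) - g (π x₀)‖) (𝓝 x₀) (𝓝 0) := by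
    have : Continuous fun x => ‖g (π x) - g (π x₀)‖ := ((hg.comp hπ).sub continuous_const).norm
    simpa using this.tendsto x₀
  have h3 : Tendsto (fun x => ‖g (π x) (Φ x)‖ / ‖Φ x‖ - ‖g (π x₀) (Φ x)‖ / ‖Φ x‖) (𝓝 x₀) (𝓝 0) := by
    refine squeeze_zero_norm (fun x => ?_) h2
    rcases eq_or_ne (‖Φ x‖) 0 with h0 | h0
    · rw [h0, div_zero, div_zero, sub_zero, norm_zero]
      exact norm_nonneg _
    · have hpos : 0 < ‖Φ x‖ := lt_of_le_of_ne (norm_nonneg _) (Ne.symm h0)
      rw [← sub_div, norm_div, norm_norm, div_le_iff₀ hpos]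
      refine (abs_norm_sub_norm_le _ _).trans ?_
      exact (g (π x) - g (π x₀)).le_opNorm (Φ x)
  have h4 := h3.add (h1.tendsto x₀)
  rw [zero_add] at h4
  have h5 : (fun x => ‖g (π x) (Φ x)‖ / ‖Φ x‖ - ‖g (π x₀) (Φ x)‖ / ‖Φ x‖ + ‖g (π x₀) (Φ x)‖ / ‖Φ x‖) =
      fun x => ‖g (π x) (Φ x)‖ / ‖Φ x‖ := by
    funext x
    ring
  rw [h5] at h4
  exact h4

/-- `continuous_ratio` for a line action -/
theorem continuous_ratio' {X : Type} [TopologicalSpace X] [TopologicalSpace Y] (T : X → X) (π : X → Y)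
    (hπ : Continuous π) (Φ : X → Fin n → K) (h : LineAction T π Φ)
    (g : Y → (Fin n → K) →L[K] (Fin n → K)) (hg : Continuous g) :
    Continuous fun x => ‖g (π x) (Φ x)‖ / ‖Φ x‖ :=
  continuous_ratio π hπ Φ h.1 g hg

end

end Pool.Agent.Zk80.LS
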