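import Pool.Agent.Zk84.M3.Stm

/-!
Points on the axes of the bodies with a circle group of symmetries: the module W2 (helper80).
-/

set_option autoImplicit false

namespace Pool.Agent.Zk80.M3W2

open Complex Set Pool.Agent.Zk84.M3

theorem avg_mem {K : Set (ℂ × ℂ)} (hK : Convex ℝ K) (hc : IsClosed K) {c : ℂ} (h1 : ‖c‖ = 1)
    (h2 : c ≠ 1) (a b : ℂ × ℂ) (h : ∀ j : ℕ, a + c ^ j • b ∈ K) : a ∈ K := by
  have hmem : ∀ n : ℕ, a + (((n + 1 : ℕ) : ℂ)⁻¹ * ∑ j ∈ Finset.range (n + 1), c ^ j) • b ∈ K := by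
    intro n
    have hn : ((n + 1 : ℕ) : ℝ) ≠ 0 := by positivity
    have hn' : ((n + 1 : ℕ) : ℂ) ≠ 0 := by exact_mod_cast Nat.succ_ne_zero n
    have h3 := hK.sum_mem (t := Finset.range (n + 1)) (w := fun _ => (((n + 1 : ℕ) : ℝ))⁻¹)
      (z := fun j => a + c ^ j • b) (fun _ _ => by positivity)
      (by rw [Finset.sum_const, Finset.card_range, nsmul_eq_mul, mul_inv_cancel₀ hn])
      (fun j _ => h j)
    have h4 : ∑ j ∈ Finset.range (n + 1), (((n + 1 : ℕ) : ℝ))⁻¹ • (a + c ^ j • b) =
        a + (((n + 1 : ℕ) : ℂ)⁻¹ * ∑ j ∈ Finset.range (n + 1), c ^ j) • b := by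
      simp only [smul_add]
      rw [Finset.sum_add_distrib, Finset.sum_const, Finset.card_range, ← Finset.smul_sum,
        ← Finset.sum_smul, ← Nat.cast_smul_eq_nsmul ℝ, smul_smul, mul_inv_cancel₀ hn, one_smul,
        mul_smul]
      congr 1
      rw [← Complex.coe_smul]
      push_cast
      rfl
    rwa [h4] at h3
  have hlim : Filter.Tendsto (fun n : ℕ =>
      a + (((n + 1 : ℕ) : ℂ)⁻¹ * ∑ j ∈ Finset.range (n + 1), c ^ j) • b) Filter.atTop (nhds a) := by
    have h5 : Filter.Tendsto (fun n : ℕ => ((n + 1 : ℕ) : ℂ)⁻¹ *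
        ∑ j ∈ Finset.range (n + 1), c ^ j) Filter.atTop (nhds 0) := by
      have h6 : Filter.Tendsto (fun n : ℕ => (1 / ((n : ℝ) + 1)) * (2 / ‖c - 1‖)) Filter.atTop
          (nhds 0) := by
        have := (tendsto_one_div_add_atTop_nhds_zero_nat (𝕜 := ℝ)).mul_const (2 / ‖c - 1‖)
        rwa [zero_mul] at this
      refine squeeze_zero_norm (fun n => ?_) h6
      rw [geom_sum_eq h2, norm_mul, norm_div, norm_inv, Complex.norm_natCast]
      push_cast
      rw [one_div]
      refine mul_le_mul_of_nonneg_left ?_ (by positivity)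
      refine div_le_div_of_nonneg_right ?_ (norm_nonneg _)
      refine (norm_sub_le _ _).trans ?_
      rw [norm_pow, h1, one_pow, norm_one]
      norm_num
    have h7 := (h5.smul_const b).const_add a
    rwa [zero_smul, add_zero] at h7
  exact hc.mem_of_tendsto hlim (Filter.Eventually.of_forall hmem)

theorem w2 : W2 := by
  intro k hk0 hk1 K hB
  have hcl : IsClosed K := hB.comp.isClosed
  have h0 : (0 : ℂ × ℂ) ∈ K := interior_subset hB.zero
  refine ⟨?_, ?_, ?_⟩
  · intro w hw
    obtain ⟨x, hx, hx2⟩ := hB.hit2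
    -- the point `(0, x.2)`
    have hne : Complex.exp ((2 * Real.pi * k : ℝ) * Complex.I) ≠ 1 := by
      intro h
      rw [Complex.exp_eq_one_iff] at h
      obtain ⟨n, hn⟩ := h
      have h3 : (2 * Real.pi * k : ℝ) = n * (2 * Real.pi) := by
        have h4 : ((2 * Real.pi * k : ℝ) : ℂ) * Complex.I = ((n * (2 * Real.pi) : ℝ) : ℂ) *
            Complex.I := by
          rw [hn]; push_cast; ring
        exact_mod_cast mul_right_cancel₀ Complex.I_ne_zero h4
      have h5 : k = n := by
        have hpi := Real.pi_pos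
        have : 2 * Real.pi * k = 2 * Real.pi * n := by rw [h3]; ring
        exact mul_left_cancel₀ (by positivity) this
      have h6 : (0 : ℤ) < n := by
        have : (0 : ℝ) < n := by rw [← h5]; exact hk0
        exact_mod_cast this
      have h7 : n < (1 : ℤ) := by
        have : (n : ℝ) < 1 := by rw [← h5]; exact hk1
        exact_mod_cast this
      omega
    have hx3 : ((0 : ℂ), x.2) ∈ K := by
      refine avg_mem hB.conv hcl (Complex.norm_exp_ofReal_mul_I _) hne (0, x.2) (x.1, 0) ?_
      intro j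
      have h3 := hB.inv (2 * Real.pi * j) x hx
      have e1 : Complex.exp ((k : ℂ) * ((2 * Real.pi * j : ℝ) : ℂ) * Complex.I) =
          Complex.exp ((2 * Real.pi * k : ℝ) * Complex.I) ^ j := by
        rw [← Complex.exp_nat_mul]
        congr 1
        push_cast
        ring
      have e2 : Complex.exp (((2 * Real.pi * j : ℝ) : ℂ) * Complex.I) = 1 := by
        rw [Complex.exp_eq_one_iff]
        refine ⟨j, ?_⟩
        push_cast
        ring
      rw [e1, e2, one_mul] at h3
      have e3 : ((0 : ℂ), x.2) + Complex.exp ((2 * Real.pi * k : ℝ) * Complex.I) ^ j • (x.1, (0 : ℂ))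
          = (Complex.exp ((2 * Real.pi * k : ℝ) * Complex.I) ^ j * x.1, x.2) := by
        refine Prod.ext ?_ ?_
        · simp
        · simp
      rw [e3]
      exact h3
    have hx2' : x.2 ≠ 0 := by
      intro h
      rw [h, norm_zero] at hx2
      exact zero_ne_one hx2
    rcases eq_or_ne w 0 with rfl | hw0
    · exact h0
    -- rotate
    have h4 := hB.inv (w / x.2).arg _ hx3
    simp only [mul_zero] at h4
    have h5 := hB.conv.smul_mem_of_zero_mem h0 h4 (t := ‖w‖) ⟨norm_nonneg _, hw⟩
    have h6 : ‖w‖ • ((0 : ℂ), Complex.exp (((w / x.2).arg : ℂ) * Complex.I) * x.2) =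
        ((0 : ℂ), w) := by
      refine Prod.ext (by simp) ?_
      have h7 := Complex.norm_mul_exp_arg_mul_I (w / x.2)
      rw [norm_div, hx2, div_one] at h7
      change ‖w‖ • (Complex.exp (((w / x.2).arg : ℂ) * Complex.I) * x.2) = w
      rw [Complex.real_smul, ← mul_assoc, h7, div_mul_cancel₀ _ hx2']
    rwa [h6] at h5
  · intro z hz
    obtain ⟨x, hx, hx1⟩ := hB.hit1
    have hcos : 0 < Real.cos (k * Real.pi / 2) := by
      have hpi := Real.pi_pos
      apply Real.cos_pos_of_mem_Ioo
      constructor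
      · nlinarith
      · nlinarith
    rcases eq_or_ne z 0 with rfl | hz0
    · exact h0
    have hx1' : x.1 ≠ 0 := by
      intro h
      rw [h, norm_zero] at hx1
      exact zero_ne_one hx1
    obtain ⟨t, ht⟩ : ∃ t : ℝ, t = (z / x.1).arg / k - Real.pi / 2 := ⟨_, rfl⟩
    have h1 := hB.inv t x hx
    have h2 := hB.inv (t + Real.pi) x hx
    have h3 := hB.conv h1 h2 (a := 1/2) (b := 1/2) (by norm_num) (by norm_num) (by norm_num)
    have hkt : k * (t + Real.pi / 2) = (z / x.1).arg := by
      rw [ht]; field_simp; ring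
    have h4 : (1/2 : ℝ) • (Complex.exp ((k : ℂ) * (t : ℂ) * Complex.I) * x.1,
        Complex.exp ((t : ℂ) * Complex.I) * x.2) +
        (1/2 : ℝ) • (Complex.exp ((k : ℂ) * ((t + Real.pi : ℝ) : ℂ) * Complex.I) * x.1,
        Complex.exp (((t + Real.pi : ℝ) : ℂ) * Complex.I) * x.2) =
        ((Real.cos (k * Real.pi / 2) : ℂ) * Complex.exp ((((z / x.1).arg : ℝ) : ℂ) * Complex.I) *
          x.1, (0 : ℂ)) := by
      refine Prod.ext ?_ ?_
      · simp only [Prod.fst_add, Prod.smul_fst, Complex.real_smul]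
        rw [Complex.ofReal_cos, Complex.cos, ← hkt]
        have e1 : Complex.exp ((k : ℂ) * (t : ℂ) * Complex.I) =
            Complex.exp (-(((k * Real.pi / 2 : ℝ) : ℂ)) * Complex.I) *
              Complex.exp (((k * (t + Real.pi / 2) : ℝ) : ℂ) * Complex.I) := by
          rw [← Complex.exp_add]; congr 1; push_cast; ring
        have e2 : Complex.exp ((k : ℂ) * ((t + Real.pi : ℝ) : ℂ) * Complex.I) =
            Complex.exp ((((k * Real.pi / 2 : ℝ) : ℂ)) * Complex.I) *
              Complex.exp (((k * (t + Real.pi / 2) : ℝ) : ℂ) * Complex.I) := by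
          rw [← Complex.exp_add]; congr 1; push_cast; ring
        rw [e1, e2]
        push_cast
        ring
      · simp only [Prod.snd_add, Prod.smul_snd, Complex.real_smul]
        have e1 : Complex.exp (((t + Real.pi : ℝ) : ℂ) * Complex.I) =
            -Complex.exp ((t : ℂ) * Complex.I) := by
          push_cast
          rw [add_mul, Complex.exp_add, Complex.exp_pi_mul_I]
          ring
        rw [e1]
        ring
    rw [h4] at h3
    have h5 := hB.conv.smul_mem_of_zero_mem h0 h3 (t := ‖z‖ / Real.cos (k * Real.pi / 2))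
      ⟨by positivity, by rw [div_le_one hcos]; exact hz⟩
    have h6 : (‖z‖ / Real.cos (k * Real.pi / 2)) • ((Real.cos (k * Real.pi / 2) : ℂ) *
        Complex.exp ((((z / x.1).arg : ℝ) : ℂ) * Complex.I) * x.1, (0 : ℂ)) = (z, (0 : ℂ)) := by
      refine Prod.ext ?_ (by simp)
      have h7 := Complex.norm_mul_exp_arg_mul_I (z / x.1)
      rw [norm_div, hx1, div_one] at h7
      have hcos' : (Real.cos (k * Real.pi / 2) : ℂ) ≠ 0 := by exact_mod_cast hcos.ne'
      change (‖z‖ / Real.cos (k * Real.pi / 2)) • ((Real.cos (k * Real.pi / 2) : ℂ) *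
        Complex.exp ((((z / x.1).arg : ℝ) : ℂ) * Complex.I) * x.1) = z
      rw [Complex.real_smul, Complex.ofReal_div]
      have e1 : (‖z‖ : ℂ) / (Real.cos (k * Real.pi / 2) : ℂ) * ((Real.cos (k * Real.pi / 2) : ℂ) *
          Complex.exp ((((z / x.1).arg : ℝ) : ℂ) * Complex.I) * x.1) =
          (‖z‖ : ℂ) * Complex.exp ((((z / x.1).arg : ℝ) : ℂ) * Complex.I) * x.1 := by
        field_simp
      rw [e1, h7, div_mul_cancel₀ _ hx1']
    rwa [h6] at h5
  · intro hn x hx
    have hne : Complex.exp ((2 * Real.pi / k : ℝ) * Complex.I) ≠ 1 := by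
      intro h
      rw [Complex.exp_eq_one_iff] at h
      obtain ⟨n, hn'⟩ := h
      have h3 : (2 * Real.pi / k : ℝ) = n * (2 * Real.pi) := by
        have h4 : ((2 * Real.pi / k : ℝ) : ℂ) * Complex.I = ((n * (2 * Real.pi) : ℝ) : ℂ) *
            Complex.I := by
          rw [hn']; push_cast; ring
        exact_mod_cast mul_right_cancel₀ Complex.I_ne_zero h4
      have hpi := Real.pi_pos
      have h5 : k * n = 1 := by
        rw [div_eq_iff hk0.ne'] at h3
        have : 2 * Real.pi * (k * n) = 2 * Real.pi * 1 := by rw [mul_one]; linarith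
        exact mul_left_cancel₀ (by positivity) this
      have h6 : (0 : ℤ) < n := by
        have : (0 : ℝ) < n := by
          by_contra hcon
          push Not at hcon
          nlinarith
        exact_mod_cast this
      obtain ⟨m, hm⟩ := Int.eq_ofNat_of_zero_le h6.le
      apply hn m
      rw [hm] at h5
      exact_mod_cast h5
    refine avg_mem hB.conv hcl (Complex.norm_exp_ofReal_mul_I _) hne (x.1, 0) (0, x.2) ?_
    intro j
    have h3 := hB.inv (2 * Real.pi / k * j) x hx
    have hk' : (k : ℂ) ≠ 0 := by exact_mod_cast hk0.ne'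
    have e1 : Complex.exp (((2 * Real.pi / k * j : ℝ) : ℂ) * Complex.I) =
        Complex.exp ((2 * Real.pi / k : ℝ) * Complex.I) ^ j := by
      rw [← Complex.exp_nat_mul]
      congr 1
      push_cast
      ring
    have e2 : Complex.exp ((k : ℂ) * ((2 * Real.pi / k * j : ℝ) : ℂ) * Complex.I) = 1 := by
      rw [Complex.exp_eq_one_iff]
      refine ⟨j, ?_⟩
      push_cast
      field_simp
    rw [e1, e2, one_mul] at h3
    have e3 : (x.1, (0 : ℂ)) + Complex.exp ((2 * Real.pi / k : ℝ) * Complex.I) ^ j • ((0 : ℂ), x.2)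
        = (x.1, Complex.exp ((2 * Real.pi / k : ℝ) * Complex.I) ^ j * x.2) := by
      refine Prod.ext ?_ ?_
      · simp
      · simp
    rw [e3]
    exact h3

end Pool.Agent.Zk80.M3W2
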